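import Mathlib
import Pool.Agent.H50.G.S.H510R2.Maier.MA4
/-! Elementary counting. -/

open Finset Filter Topology

namespace Pool.Agent.H510R2.Maier

/-- primes in `(a,b]` -/
def PI (a b : ℕ) : Finset ℕ := (Ioc a b).filter Nat.Prime

theorem mem_PI {a b p : ℕ} : p ∈ PI a b ↔ (a < p ∧ p ≤ b) ∧ p.Prime := by
  unfold PI
  rw [Finset.mem_filter, Finset.mem_Ioc]

theorem sum_PI (f : ℕ → ℝ) {a b : ℕ} (h : a ≤ b) : ∑ p ∈ PI a b, f p =
    ∑ p ∈ (Icc 1 b).filter Nat.Prime, f p - ∑ p ∈ (Icc 1 a).filter Nat.Prime, f p := by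
  have h1 : (Icc 1 b).filter Nat.Prime = (Icc 1 a).filter Nat.Prime ∪ PI a b := by
    ext p
    rw [Finset.mem_union, mem_PI, Finset.mem_filter, Finset.mem_filter, Finset.mem_Icc, Finset.mem_Icc]
    constructor
    · rintro ⟨⟨h1, h2⟩, h3⟩
      rcases le_or_gt p a with h4 | h4
      · exact Or.inl ⟨⟨h1, h4⟩, h3⟩
      · exact Or.inr ⟨⟨h4, h2⟩, h3⟩
    · rintro (⟨⟨h1, h2⟩, h3⟩ | ⟨⟨h1, h2⟩, h3⟩)
      · exact ⟨⟨h1, h2.trans h⟩, h3⟩
      · exact ⟨⟨h3.one_lt.le, h2⟩, h3⟩
  have h2 : Disjoint ((Icc 1 a).filter Nat.Prime) (PI a b) := by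
    rw [Finset.disjoint_left]
    intro p hp hp'
    have := (Finset.mem_Icc.1 (Finset.mem_filter.1 hp).1).2
    have := (mem_PI.1 hp').1.1
    omega
  rw [h1, Finset.sum_union h2]
  ring

theorem sum_PI_inv {a b : ℕ} (h : a ≤ b) : ∑ p ∈ PI a b, (1 : ℝ) / p = R1 b - R1 a := sum_PI _ h

theorem sum_PI_log {a b : ℕ} (h : a ≤ b) : ∑ p ∈ PI a b, Real.log p / p = R2 b - R2 a := sum_PI _ h

theorem R1_mono {a b : ℕ} (h : a ≤ b) : R1 a ≤ R1 b := by
  have := sum_PI_inv h
  have h2 : 0 ≤ ∑ p ∈ PI a b, (1 : ℝ) / p := Finset.sum_nonneg fun p _ => by positivity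
  linarith

/-- numbers `h ≤ Y` with no prime factor in `(w, z]` -/
def NAs (w z Y : ℕ) : Finset ℕ :=
  (Icc 1 Y).filter (fun h => ∀ p ∈ PI w z, ¬ p ∣ h)

theorem NAs_single (w z M : ℕ) :
    (M : ℝ) - ∑ p ∈ PI w z, ((M / p : ℕ) : ℝ) ≤ (NAs w z M).card := by
  have h1 : Icc 1 M ⊆ NAs w z M ∪ (PI w z).biUnion (fun p => (Icc 1 M).filter (fun h => p ∣ h)) := by
    intro h hh
    rw [Finset.mem_union]
    by_cases hp : ∀ p ∈ PI w z, ¬ p ∣ h
    · left
      exact Finset.mem_filter.2 ⟨hh, hp⟩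
    · right
      push Not at hp
      obtain ⟨p, hp, hd⟩ := hp
      rw [Finset.mem_biUnion]
      exact ⟨p, hp, Finset.mem_filter.2 ⟨hh, hd⟩⟩
  have h2 : M ≤ (NAs w z M).card + ∑ p ∈ PI w z, M / p := by
    calc M = (Icc 1 M).card := by simp
      _ ≤ _ := Finset.card_le_card h1
      _ ≤ _ := Finset.card_union_le _ _
      _ ≤ (NAs w z M).card + ∑ p ∈ PI w z, M / p := by
          gcongr
          refine Finset.card_biUnion_le.trans ?_
          apply Finset.sum_le_sum
          intro p hp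
          rw [show (Icc 1 M) = Ioc 0 M from rfl, Nat.Ioc_filter_dvd_card_eq_div]
  have h3 : (M : ℝ) ≤ (NAs w z M).card + ∑ p ∈ PI w z, ((M / p : ℕ) : ℝ) := by exact_mod_cast h2
  linarith

theorem NAs_ge (w z Y T : ℕ) (hT : Y < (T + 1) ^ 2) (hz : z ≤ T) :
    ∑ q ∈ PI T Y, (NAs w z (Y / q)).card ≤ (NAs w z Y).card := by
  classical
  have hdisj : ∀ q ∈ PI T Y, ∀ q' ∈ PI T Y, q ≠ q' →
      Disjoint ((NAs w z (Y / q)).image (fun m => q * m)) ((NAs w z (Y / q')).image (fun m => q' * m)) := by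
    intro q hq q' hq' hne
    rw [Finset.disjoint_left]
    intro x hx hx'
    obtain ⟨m, hm, rfl⟩ := Finset.mem_image.1 hx
    obtain ⟨m', hm', he⟩ := Finset.mem_image.1 hx'
    have hqp := (mem_PI.1 hq).2
    have hqp' := (mem_PI.1 hq').2
    have hm1 := Finset.mem_Icc.1 (Finset.mem_filter.1 hm).1
    have h1 : q * q' ∣ q * m := by
      apply Nat.Coprime.mul_dvd_of_dvd_of_dvd ((Nat.coprime_primes hqp hqp').2 hne)
      · exact dvd_mul_right _ _
      · rw [← he]; exact dvd_mul_right _ _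
    have h2 : q * q' ≤ q * m := Nat.le_of_dvd (Nat.mul_pos hqp.pos (by omega)) h1
    have h3 : q * m ≤ Y := by
      calc q * m ≤ q * (Y / q) := Nat.mul_le_mul_left _ hm1.2
        _ ≤ Y := Nat.mul_div_le _ _
    have h4 : (T + 1) ^ 2 ≤ q * q' := by
      rw [sq]
      exact Nat.mul_le_mul (mem_PI.1 hq).1.1 (mem_PI.1 hq').1.1
    omega
  have hcard : ∑ q ∈ PI T Y, (NAs w z (Y / q)).card =
      ((PI T Y).biUnion (fun q => (NAs w z (Y / q)).image (fun m => q * m))).card := by
    rw [Finset.card_biUnion hdisj]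
    apply Finset.sum_congr rfl
    intro q hq
    rw [Finset.card_image_of_injective]
    intro a b hab
    exact Nat.eq_of_mul_eq_mul_left (mem_PI.1 hq).2.pos hab
  rw [hcard]
  apply Finset.card_le_card
  intro x hx
  obtain ⟨q, hq, hx⟩ := Finset.mem_biUnion.1 hx
  obtain ⟨m, hm, rfl⟩ := Finset.mem_image.1 hx
  have hqp := (mem_PI.1 hq).2
  have hm1 := Finset.mem_Icc.1 (Finset.mem_filter.1 hm).1
  have hm2 := (Finset.mem_filter.1 hm).2
  refine Finset.mem_filter.2 ⟨Finset.mem_Icc.2 ⟨Nat.mul_pos hqp.pos (by omega), ?_⟩, ?_⟩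
  · calc q * m ≤ q * (Y / q) := Nat.mul_le_mul_left _ hm1.2
        _ ≤ Y := Nat.mul_div_le _ _
  · intro p hp hd
    have hpp := (mem_PI.1 hp).2
    rcases (Nat.Prime.dvd_mul hpp).1 hd with h | h
    · have := (Nat.prime_dvd_prime_iff_eq hpp hqp).1 h
      have h5 := (mem_PI.1 hp).1.2
      have h6 := (mem_PI.1 hq).1.1
      omega
    · exact hm2 p hp h

open Classical in
/-- numbers `m ≤ T` all of whose prime factors are `> z` or in `S` -/
noncomputable def GG (z : ℕ) (S : Finset ℕ) (T : ℕ) : Finset ℕ :=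
  (Icc 1 T).filter (fun m => ∀ p : ℕ, p.Prime → p ∣ m → z < p ∨ p ∈ S)

theorem GG_le (z : ℕ) (S : Finset ℕ) (T : ℕ) (hT : T < (z + 1) ^ 3) :
    (GG z S T).card ≤ 1 + (PI z T).card + ∑ p ∈ PI z (T / (z + 1)), (PI z (T / p)).card + ∑ q ∈ S, T / q := by
  classical
  have h1 : GG z S T ⊆ {1} ∪ PI z T ∪ (PI z (T / (z + 1))).biUnion (fun p => (PI z (T / p)).image (fun m => p * m)) ∪
      S.biUnion (fun q => (Icc 1 T).filter (fun h => q ∣ h)) := by
    intro m hm
    have hm1 := Finset.mem_Icc.1 (Finset.mem_filter.1 hm).1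
    have hm2 := (Finset.mem_filter.1 hm).2
    rw [Finset.mem_union, Finset.mem_union, Finset.mem_union]
    by_cases hS : ∃ q ∈ S, q ∣ m
    · obtain ⟨q, hq, hd⟩ := hS
      right
      exact Finset.mem_biUnion.2 ⟨q, hq, Finset.mem_filter.2 ⟨Finset.mem_Icc.2 hm1, hd⟩⟩
    · left
      push Not at hS
      have hm3 : ∀ p : ℕ, p.Prime → p ∣ m → z < p := fun p hp hd =>
        (hm2 p hp hd).resolve_right (fun h => hS p h hd)
      by_cases hone : m = 1
      · left; left; simp [hone]
      by_cases hprime : m.Prime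
      · left; right
        exact mem_PI.2 ⟨⟨hm3 m hprime dvd_rfl, hm1.2⟩, hprime⟩
      · right
        have hp := Nat.minFac_prime hone
        set p := m.minFac with hpdef
        have hpd : p ∣ m := Nat.minFac_dvd m
        obtain ⟨k, hk⟩ := hpd
        have hzp : z < p := hm3 p hp ⟨k, hk⟩
        have hk1 : k ≠ 1 := by
          rintro rfl
          rw [mul_one] at hk
          rw [hk] at hprime
          exact hprime hp
        have hk0 : 0 < k := by
          rcases Nat.eq_zero_or_pos k with h | h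
          · rw [h, mul_zero] at hk; omega
          · exact h
        have hkp : k.Prime := by
          by_contra hkn
          have h2 := Nat.minFac_sq_le_self hk0 hkn
          have h3 : z < k.minFac := hm3 _ (Nat.minFac_prime hk1) ((Nat.minFac_dvd k).trans ⟨p, by rw [hk]; ring⟩)
          have h4 : (z + 1) ^ 3 ≤ m := by
            calc (z + 1) ^ 3 = (z + 1) * (z + 1) ^ 2 := by ring
              _ ≤ p * k.minFac ^ 2 := Nat.mul_le_mul hzp (Nat.pow_le_pow_left h3 2)
              _ ≤ p * k := Nat.mul_le_mul_left _ h2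
              _ = m := hk.symm
          omega
        have hzk : z < k := hm3 k hkp ⟨p, by rw [hk]; ring⟩
        have hpk : p * k ≤ T := by rw [← hk]; exact hm1.2
        refine Finset.mem_biUnion.2 ⟨p, mem_PI.2 ⟨⟨hzp, ?_⟩, hp⟩, Finset.mem_image.2 ⟨k, mem_PI.2 ⟨⟨hzk, ?_⟩, hkp⟩, hk.symm⟩⟩
        · rw [Nat.le_div_iff_mul_le (by omega)]
          exact (Nat.mul_le_mul_left _ hzk).trans hpk
        · rw [Nat.le_div_iff_mul_le hp.pos, mul_comm]
          exact hpk
  refine (Finset.card_le_card h1).trans ?_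
  refine (Finset.card_union_le _ _).trans ?_
  apply Nat.add_le_add
  · refine (Finset.card_union_le _ _).trans ?_
    apply Nat.add_le_add
    · refine (Finset.card_union_le _ _).trans ?_
      simp
    · refine Finset.card_biUnion_le.trans ?_
      apply Finset.sum_le_sum
      intro p hp
      exact Finset.card_image_le
  · refine Finset.card_biUnion_le.trans ?_
    apply Finset.sum_le_sum
    intro p hp
    rw [show (Icc 1 T) = Ioc 0 T from rfl, Nat.Ioc_filter_dvd_card_eq_div]

open Classical in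
/-- numbers `m ≤ T` all of whose prime factors are `> z`, in `S` or equal to `ps` -/
noncomputable def HH (z : ℕ) (S : Finset ℕ) (ps T : ℕ) : Finset ℕ :=
  (Icc 1 T).filter (fun m => ∀ p : ℕ, p.Prime → p ∣ m → z < p ∨ p ∈ S ∨ p = ps)

theorem HH_rec (z : ℕ) (S : Finset ℕ) (ps T : ℕ) (hps : ps.Prime) :
    (HH z S ps T).card ≤ (GG z S T).card + (HH z S ps (T / ps)).card := by
  classical
  have h1 : HH z S ps T ⊆ GG z S T ∪ (HH z S ps (T / ps)).image (fun m => ps * m) := by
    intro m hm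
    have hm1 := Finset.mem_Icc.1 (Finset.mem_filter.1 hm).1
    have hm2 := (Finset.mem_filter.1 hm).2
    rw [Finset.mem_union]
    by_cases hd : ps ∣ m
    · right
      obtain ⟨k, hk⟩ := hd
      have hk0 : 0 < k := by
        rcases Nat.eq_zero_or_pos k with h | h
        · rw [h, mul_zero] at hk; omega
        · exact h
      refine Finset.mem_image.2 ⟨k, Finset.mem_filter.2 ⟨Finset.mem_Icc.2 ⟨hk0, ?_⟩, ?_⟩, hk.symm⟩
      · rw [Nat.le_div_iff_mul_le hps.pos, mul_comm, ← hk]
        exact hm1.2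
      · intro p hp hpd
        exact hm2 p hp (hpd.trans ⟨ps, by rw [hk]; ring⟩)
    · left
      refine Finset.mem_filter.2 ⟨Finset.mem_Icc.2 hm1, ?_⟩
      intro p hp hpd
      rcases hm2 p hp hpd with h | h | h
      · exact Or.inl h
      · exact Or.inr h
      · rw [h] at hpd; exact absurd hpd hd
  refine (Finset.card_le_card h1).trans ?_
  refine (Finset.card_union_le _ _).trans ?_
  exact Nat.add_le_add_left Finset.card_image_le _

theorem HH_bound (z : ℕ) (S : Finset ℕ) (ps Y : ℕ) (hps : ps.Prime) (c : ℝ) (hc : 0 ≤ c)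
    (hG : ∀ T : ℕ, T ≤ Y → ((GG z S T).card : ℝ) ≤ 1 + c * T) :
    ∀ T : ℕ, T ≤ Y → ((HH z S ps T).card : ℝ) ≤ Nat.log 2 T + 1 + 2 * c * T := by
  intro T
  induction T using Nat.strong_induction_on with
  | _ T ih =>
    intro hTY
    rcases Nat.eq_zero_or_pos T with h0 | h0
    · subst h0
      have : HH z S ps 0 = ∅ := by
        unfold HH; simp
      rw [this]
      simp
    · have h1 : ((HH z S ps T).card : ℝ) ≤ (GG z S T).card + (HH z S ps (T / ps)).card := by
        exact_mod_cast HH_rec z S ps T hps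
      have h2 := hG T hTY
      have hlt : T / ps < T := Nat.div_lt_self h0 hps.one_lt
      rcases Nat.eq_zero_or_pos (T / ps) with h3 | h3
      · have h4 : HH z S ps (T / ps) = ∅ := by
          rw [h3]; unfold HH; simp
        rw [h4] at h1
        have h5 : (0 : ℝ) ≤ Nat.log 2 T := Nat.cast_nonneg _
        have h6 : 0 ≤ c * T := by positivity
        rw [Finset.card_empty, Nat.cast_zero, add_zero] at h1
        linarith
      · have h4 := ih (T / ps) hlt (by omega)
        have h5 : Nat.log 2 (T / ps) + 1 ≤ Nat.log 2 T := by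
          have h6 : T / ps ≤ T / 2 := Nat.div_le_div_left hps.two_le (by norm_num)
          have h7 : 2 ≤ T := by
            by_contra hcon
            have : T / ps = 0 := Nat.div_eq_of_lt (by have := hps.two_le; omega)
            omega
          have h8 : Nat.log 2 (T / 2) + 1 = Nat.log 2 T := by
            rw [Nat.log_div_base]
            have : 0 < Nat.log 2 T := Nat.log_pos (by norm_num) h7
            omega
          have := Nat.log_mono_right (b := 2) h6
          omega
        have h5' : (Nat.log 2 (T / ps) : ℝ) + 1 ≤ Nat.log 2 T := by exact_mod_cast h5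
        have h6 : ((T / ps : ℕ) : ℝ) ≤ T / 2 := by
          refine Nat.cast_div_le.trans ?_
          have : (2 : ℝ) ≤ ps := by exact_mod_cast hps.two_le
          gcongr
        have h7 : 2 * c * ((T / ps : ℕ) : ℝ) ≤ c * T := by
          calc 2 * c * ((T / ps : ℕ) : ℝ) ≤ 2 * c * (T / 2) := by gcongr
            _ = c * T := by ring
        linarith

end Pool.Agent.H510R2.Maier
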