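import Mathlib
import Pool.Agent.H50.G.S.H510R2.Maier.MA5
/-! Asymptotics for the count with `r = 0`. -/

open Finset Filter Topology

namespace Pool.Agent.H510R2.Maier

noncomputable def Yf (lam L : ℝ) : ℕ := ⌊lam * L ^ 2⌋₊

theorem tlogfloor (c e : ℝ) (hc : 0 < c) (he : 0 < e) :
    Tendsto (fun L : ℝ => Real.log ⌊c * L ^ e⌋₊ / Real.log L) atTop (𝓝 e) := by
  have h1 := (log_floor_div.comp (ttop c e hc he)).mul (tlog c e hc)
  rw [one_mul] at h1
  refine h1.congr' ?_
  filter_upwards [(ttop c e hc he).eventually_gt_atTop 1, eventually_gt_atTop (1 : ℝ)] with L h2 h3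
  have h4 := Real.log_pos h2
  have h5 := Real.log_pos h3
  simp only [Function.comp]
  field_simp

theorem card_PI_le (a N : ℕ) : (PI a N).card ≤ Nat.primeCounting N := by
  unfold Nat.primeCounting Nat.primeCounting'
  rw [Nat.count_eq_card_filter_range]
  apply Finset.card_le_card
  intro p hp
  have h := mem_PI.1 hp
  rw [Finset.mem_filter, Finset.mem_range]
  exact ⟨by omega, h.2⟩

theorem pi_ev (δ : ℝ) (hδ : 0 < δ) : ∀ᶠ N : ℕ in atTop,
    (Nat.primeCounting N : ℝ) ≤ (1 + δ) * (N / Real.log N) := by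
  have h1 := Pool.Agent.Helper601.PNT.pi_tendsto.comp (tendsto_natCast_atTop_atTop (R := ℝ))
  have h2 := h1.eventually_lt_const (show (1 : ℝ) < 1 + δ by linarith)
  filter_upwards [h2, eventually_ge_atTop 2] with N h3 h4
  simp only [Function.comp, Nat.floor_natCast] at h3
  have h5 : (2 : ℝ) ≤ N := by exact_mod_cast h4
  have h6 : 0 < Real.log N := Real.log_pos (by linarith)
  have h7 : (0 : ℝ) < N := by linarith
  rw [div_lt_iff₀ h7] at h3
  rw [mul_div_assoc', le_div_iff₀ h6]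
  exact h3.le

theorem tendsto_z : Tendsto (fun L : ℝ => ⌊L / 1000⌋₊) atTop atTop :=
  tendsto_nat_floor_atTop.comp (tendsto_id.atTop_div_const (by norm_num))

theorem log_z : ∀ᶠ L : ℝ in atTop, Real.log L / 2 ≤ Real.log ⌊L / 1000⌋₊ := by
  have h1 := tlogfloor (1 / 1000) 1 (by norm_num) (by norm_num)
  have h2 := h1.eventually_const_lt (show (1 / 2 : ℝ) < 1 by norm_num)
  filter_upwards [h2, eventually_gt_atTop (1 : ℝ)] with L h3 h4
  have h5 := Real.log_pos h4
  rw [Real.rpow_one, show (1 : ℝ) / 1000 * L = L / 1000 by ring, lt_div_iff₀ h5] at h3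
  linarith

theorem PI_bd : ∀ᶠ L : ℝ in atTop, ∀ N : ℕ, ((PI ⌊L / 1000⌋₊ N).card : ℝ) ≤ 4 * N / Real.log L := by
  obtain ⟨N0, hN0⟩ := eventually_atTop.1 (pi_ev 1 one_pos)
  filter_upwards [log_z, tendsto_z.eventually_ge_atTop (max N0 2), eventually_gt_atTop (1 : ℝ)] with L h1 h2 h3
  intro N
  have h4 := Real.log_pos h3
  rcases le_or_gt N ⌊L / 1000⌋₊ with h5 | h5
  · have : PI ⌊L / 1000⌋₊ N = ∅ := by
      unfold PI
      rw [Finset.Ioc_eq_empty (by omega)]
      simp
    rw [this]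
    simp only [card_empty, Nat.cast_zero]
    positivity
  · have h6 := hN0 N ((le_max_left _ _).trans (h2.trans h5.le))
    have h7 : ((PI ⌊L / 1000⌋₊ N).card : ℝ) ≤ Nat.primeCounting N := by exact_mod_cast card_PI_le _ _
    have h8 : Real.log ⌊L / 1000⌋₊ ≤ Real.log N := by
      apply Real.log_le_log
      · have := (le_max_right _ _).trans h2
        exact_mod_cast (by omega : 0 < ⌊L / 1000⌋₊)
      · exact_mod_cast h5.le
    have h9 : Real.log L / 2 ≤ Real.log N := h1.trans h8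
    calc ((PI ⌊L / 1000⌋₊ N).card : ℝ) ≤ (1 + 1) * (N / Real.log N) := h7.trans h6
      _ ≤ (1 + 1) * (N / (Real.log L / 2)) := by gcongr
      _ = 4 * N / Real.log L := by field_simp; ring

theorem R1_small (K : ℝ) (hK : 0 < K) (δ : ℝ) (hδ : 0 < δ) : ∀ᶠ L : ℝ in atTop,
    ∑ p ∈ PI ⌊L / 1000⌋₊ ⌊K * L⌋₊, (1 : ℝ) / p ≤ δ := by
  have h1 := R1_cell K (1 / 1000) 1 1 hK (by norm_num) one_pos one_pos
  rw [div_one, Real.log_one] at h1
  have h2 := h1.eventually_lt_const hδ
  filter_upwards [h2] with L h3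
  simp only [Real.rpow_one] at h3
  rw [show (1 : ℝ) / 1000 * L = L / 1000 by ring] at h3
  rcases le_or_gt ⌊L / 1000⌋₊ ⌊K * L⌋₊ with h4 | h4
  · rw [sum_PI_inv h4]
    exact h3.le
  · have : PI ⌊L / 1000⌋₊ ⌊K * L⌋₊ = ∅ := by
      unfold PI
      rw [Finset.Ioc_eq_empty (by omega)]
      simp
    rw [this]
    simp [hδ.le]

theorem PI_Y (lam : ℝ) (hlam : 0 < lam) (δ : ℝ) (hδ : 0 < δ) : ∀ᶠ L : ℝ in atTop,
    ∀ a : ℕ, ((PI a (Yf lam L)).card : ℝ) ≤ (1 / 2 + δ) * (Yf lam L / Real.log L) := by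
  have h1 := tlogfloor lam 2 hlam (by norm_num)
  have h2 : (2 : ℝ) * (1 + δ / 2) / (1 + 2 * δ) < 2 := by
    rw [div_lt_iff₀ (by linarith)]
    linarith
  have h3 := h1.eventually_const_lt h2
  have hY : Tendsto (fun L : ℝ => Yf lam L) atTop atTop := by
    unfold Yf
    apply tendsto_nat_floor_atTop.comp
    exact (tendsto_pow_atTop (by norm_num)).const_mul_atTop hlam
  have h4 := hY.eventually (pi_ev (δ / 2) (by linarith))
  filter_upwards [h3, h4, eventually_gt_atTop (1 : ℝ), hY.eventually_ge_atTop 2] with L h5 h6 h7 h8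
  intro a
  have h9 := Real.log_pos h7
  have h10 : ((PI a (Yf lam L)).card : ℝ) ≤ Nat.primeCounting (Yf lam L) := by exact_mod_cast card_PI_le _ _
  refine (h10.trans h6).trans ?_
  rw [lt_div_iff₀ h9] at h5
  have h11 : Real.log (Yf lam L) = Real.log ⌊lam * L ^ (2 : ℝ)⌋₊ := by
    unfold Yf
    congr 4
    rw [← Real.rpow_natCast]; norm_num
  rw [← h11] at h5
  have h12 : (2 : ℝ) ≤ Yf lam L := by exact_mod_cast h8
  have h13 : 0 < Real.log (Yf lam L) := Real.log_pos (by linarith)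
  have h14 : (0 : ℝ) < Yf lam L := by linarith
  rw [mul_div_assoc', mul_div_assoc', div_le_div_iff₀ h13 h9]
  have h15 : (1 + δ / 2) * Real.log L ≤ (1 / 2 + δ) * Real.log (Yf lam L) := by
    have := h5.le
    rw [div_mul_eq_mul_div, div_le_iff₀ (by linarith)] at this
    linarith
  calc (1 + δ / 2) * (Yf lam L : ℝ) * Real.log L = (Yf lam L : ℝ) * ((1 + δ / 2) * Real.log L) := by ring
    _ ≤ (Yf lam L : ℝ) * ((1 / 2 + δ) * Real.log (Yf lam L)) := by gcongr
    _ = _ := by ring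

/-- the bound for `GG` -/
theorem GG_bd (lam : ℝ) (hlam : 0 < lam) (δ : ℝ) (hδ : 0 < δ) : ∀ᶠ L : ℝ in atTop,
    ∀ S : Finset ℕ, ∑ q ∈ S, (1 : ℝ) / q ≤ 6 / (Real.log L) ^ 2 → ∀ T : ℕ, T ≤ Yf lam L →
      ((GG ⌊L / 1000⌋₊ S T).card : ℝ) ≤ 1 + (PI ⌊L / 1000⌋₊ T).card + δ * T / Real.log L := by
  have hK : 0 < 1000 * lam := by positivity
  have e1 := R1_small (1000 * lam) hK (δ / 8) (by positivity)
  have e2 := Real.tendsto_log_atTop.eventually_ge_atTop (12 / δ)
  filter_upwards [e1, e2, PI_bd, eventually_gt_atTop (1 : ℝ), eventually_gt_atTop (1000 ^ 3 * lam)] with L h1 h2 h3 h4 h5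
  intro S hS T hT
  have hL0 : 0 < L := by linarith
  have hlog := Real.log_pos h4
  set z := ⌊L / 1000⌋₊ with hz
  have hz1 : L / 1000 < (z : ℝ) + 1 := Nat.lt_floor_add_one _
  have hTr : (T : ℝ) ≤ lam * L ^ 2 := by
    have h6 : (T : ℝ) ≤ Yf lam L := by exact_mod_cast hT
    exact h6.trans (Nat.floor_le (by positivity))
  have hT3 : T < (z + 1) ^ 3 := by
    have h6 : (T : ℝ) < (((z + 1) ^ 3 : ℕ) : ℝ) := by
      push_cast
      calc (T : ℝ) ≤ lam * L ^ 2 := hTr
        _ < (L / 1000) ^ 3 := by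
            have : (L / 1000) ^ 3 = L / 1000 ^ 3 * L ^ 2 := by ring
            rw [this]
            apply mul_lt_mul_of_pos_right _ (by positivity)
            rw [lt_div_iff₀ (by norm_num)]
            linarith
        _ ≤ ((z : ℝ) + 1) ^ 3 := by gcongr
    exact_mod_cast h6
  have hG := GG_le z S T hT3
  have hG' : ((GG z S T).card : ℝ) ≤ 1 + (PI z T).card + ∑ p ∈ PI z (T / (z + 1)), ((PI z (T / p)).card : ℝ) +
      ∑ q ∈ S, ((T / q : ℕ) : ℝ) := by exact_mod_cast hG
  have hA : ∑ p ∈ PI z (T / (z + 1)), ((PI z (T / p)).card : ℝ) ≤ (δ / 2) * T / Real.log L := by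
    have hsub : PI z (T / (z + 1)) ⊆ PI z ⌊1000 * lam * L⌋₊ := by
      intro p hp
      have h6 := mem_PI.1 hp
      refine mem_PI.2 ⟨⟨h6.1.1, h6.1.2.trans ?_⟩, h6.2⟩
      apply Nat.le_floor
      refine Nat.cast_div_le.trans ?_
      push_cast
      rw [div_le_iff₀ (by positivity)]
      calc (T : ℝ) ≤ lam * L ^ 2 := hTr
        _ = 1000 * lam * L * (L / 1000) := by ring
        _ ≤ 1000 * lam * L * (z + 1) := by gcongr
    calc ∑ p ∈ PI z (T / (z + 1)), ((PI z (T / p)).card : ℝ)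
        ≤ ∑ p ∈ PI z (T / (z + 1)), 4 * (T : ℝ) / Real.log L * (1 / p) := by
          apply Finset.sum_le_sum
          intro p hp
          refine (h3 (T / p)).trans ?_
          have h6 : ((T / p : ℕ) : ℝ) ≤ T / p := Nat.cast_div_le
          calc 4 * ((T / p : ℕ) : ℝ) / Real.log L ≤ 4 * ((T : ℝ) / p) / Real.log L := by gcongr
            _ = _ := by ring
      _ = 4 * (T : ℝ) / Real.log L * ∑ p ∈ PI z (T / (z + 1)), (1 : ℝ) / p := by rw [Finset.mul_sum]
      _ ≤ 4 * (T : ℝ) / Real.log L * (δ / 8) := by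
          apply mul_le_mul_of_nonneg_left _ (by positivity)
          refine le_trans ?_ h1
          apply Finset.sum_le_sum_of_subset_of_nonneg hsub
          intro p _ _
          positivity
      _ = _ := by ring
  have hB : ∑ q ∈ S, ((T / q : ℕ) : ℝ) ≤ (δ / 2) * T / Real.log L := by
    calc ∑ q ∈ S, ((T / q : ℕ) : ℝ) ≤ ∑ q ∈ S, (T : ℝ) * (1 / q) := by
          apply Finset.sum_le_sum
          intro q _
          refine Nat.cast_div_le.trans ?_
          rw [mul_one_div]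
      _ = T * ∑ q ∈ S, (1 : ℝ) / q := by rw [Finset.mul_sum]
      _ ≤ T * (6 / (Real.log L) ^ 2) := by gcongr
      _ = T / Real.log L * (6 / Real.log L) := by field_simp
      _ ≤ T / Real.log L * (δ / 2) := by
          apply mul_le_mul_of_nonneg_left _ (by positivity)
          rw [div_le_iff₀ hlog]
          rw [div_le_iff₀ hδ] at h2
          linarith
      _ = _ := by ring
  calc ((GG z S T).card : ℝ) ≤ _ := hG'
    _ ≤ 1 + (PI z T).card + (δ / 2) * T / Real.log L + (δ / 2) * T / Real.log L := by gcongr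
    _ = _ := by ring

theorem log_small (δ lam : ℝ) (hδ : 0 < δ) (hlam : 0 < lam) : ∀ᶠ L : ℝ in atTop,
    (Nat.log 2 (Yf lam L) : ℝ) + 82 ≤ δ * (Yf lam L / Real.log L) := by
  have hY : Tendsto (fun L : ℝ => Yf lam L) atTop atTop := by
    unfold Yf
    apply tendsto_nat_floor_atTop.comp
    exact (tendsto_pow_atTop (by norm_num)).const_mul_atTop hlam
  have hYr : Tendsto (fun L : ℝ => (Yf lam L : ℝ)) atTop atTop := tendsto_natCast_atTop_atTop.comp hY
  -- `log^2 N / N → 0`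
  have h1 := (Real.isLittleO_pow_log_id_atTop (n := 2)).bound (show (0 : ℝ) < δ / 168 by positivity)
  have h2 := hYr.eventually h1
  -- `Yf ≥ L`
  have h3 : ∀ᶠ L : ℝ in atTop, L ≤ Yf lam L := by
    filter_upwards [eventually_ge_atTop (2 / lam), eventually_ge_atTop (1 : ℝ)] with L h4 h5
    have h6 : lam * L ^ 2 < Yf lam L + 1 := Nat.lt_floor_add_one _
    rw [div_le_iff₀ hlam] at h4
    nlinarith
  filter_upwards [h2, h3, eventually_gt_atTop (1 : ℝ), hYr.eventually_ge_atTop (Real.exp 1)] with L h4 h5 h6 h7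
  have hlog := Real.log_pos h6
  have hY0 : (0 : ℝ) < Yf lam L := by linarith
  have hlY : 1 ≤ Real.log (Yf lam L) := by
    rw [Real.le_log_iff_exp_le hY0]; exact h7
  rw [id, Real.norm_of_nonneg (pow_nonneg (by linarith) 2), Real.norm_of_nonneg hY0.le] at h4
  have h8 : (Nat.log 2 (Yf lam L) : ℝ) ≤ 2 * Real.log (Yf lam L) := by
    have h9 := Real.natLog_le_logb (Yf lam L) 2
    have h10 : Real.logb 2 (Yf lam L) ≤ 2 * Real.log (Yf lam L) := by
      unfold Real.logb
      rw [div_le_iff₀ (Real.log_pos (by norm_num))]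
      have := Real.log_two_gt_d9
      nlinarith
    have h11 : ((2 : ℕ) : ℝ) = 2 := by norm_num
    rw [h11] at h9
    linarith
  have h12 : Real.log L ≤ Real.log (Yf lam L) := Real.log_le_log (by linarith) h5
  rw [mul_div_assoc', le_div_iff₀ hlog]
  calc ((Nat.log 2 (Yf lam L) : ℝ) + 82) * Real.log L ≤ (2 * Real.log (Yf lam L) + 82 * Real.log (Yf lam L)) * Real.log (Yf lam L) := by
        gcongr
        linarith
    _ = 84 * Real.log (Yf lam L) ^ 2 := by ring
    _ ≤ 84 * (δ / 168 * (Yf lam L)) := by gcongr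
    _ ≤ _ := by nlinarith

end Pool.Agent.H510R2.Maier
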