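import Mathlib
import Pool.Agent.H50.G.S.H510R2.Maier.MA6
/-! The density of integers without prime factors in `(L^{2/5}, L/1000]` up to `lam L^2`. -/

open Finset Filter Topology

namespace Pool.Agent.H510R2.Maier

/-- combinatorial lower bound -/
theorem NAs_lower (w z Y T : ℕ) (hT : Y < (T + 1) ^ 2) (hz : z ≤ T) (hTY : T ≤ Y) :
    (Y : ℝ) * (R1 Y - R1 T) - (PI T Y).card -
      Y * ∑ p ∈ PI w z, (1 : ℝ) / p * ∑ q ∈ PI T (Y / p), (1 : ℝ) / q ≤ (NAs w z Y).card := by
  classical
  have h1 : ∑ q ∈ PI T Y, ((NAs w z (Y / q)).card : ℝ) ≤ (NAs w z Y).card := by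
    exact_mod_cast NAs_ge w z Y T hT hz
  refine le_trans ?_ h1
  have h2 : ∑ q ∈ PI T Y, (((Y / q : ℕ) : ℝ) - ∑ p ∈ PI w z, ((Y / q / p : ℕ) : ℝ)) ≤
      ∑ q ∈ PI T Y, ((NAs w z (Y / q)).card : ℝ) :=
    Finset.sum_le_sum fun q _ => NAs_single w z (Y / q)
  refine le_trans ?_ h2
  rw [Finset.sum_sub_distrib]
  have h3 : (Y : ℝ) * (R1 Y - R1 T) - (PI T Y).card ≤ ∑ q ∈ PI T Y, ((Y / q : ℕ) : ℝ) := by
    rw [← sum_PI_inv hTY, Finset.mul_sum, Finset.card_eq_sum_ones]
    push_cast
    rw [← Finset.sum_sub_distrib]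
    apply Finset.sum_le_sum
    intro q hq
    have h4 : (Y : ℝ) / q < (Y / q : ℕ) + 1 := by
      rw [← Nat.floor_div_eq_div (K := ℝ)]
      exact Nat.lt_floor_add_one _
    rw [mul_one_div]
    linarith
  have h4 : ∑ q ∈ PI T Y, ∑ p ∈ PI w z, ((Y / q / p : ℕ) : ℝ) ≤
      Y * ∑ p ∈ PI w z, (1 : ℝ) / p * ∑ q ∈ PI T (Y / p), (1 : ℝ) / q := by
    rw [Finset.sum_comm, Finset.mul_sum]
    apply Finset.sum_le_sum
    intro p hp
    have hpp := (mem_PI.1 hp).2
    have h5 : ∑ q ∈ PI T Y, ((Y / q / p : ℕ) : ℝ) = ∑ q ∈ PI T (Y / p), ((Y / q / p : ℕ) : ℝ) := by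
      symm
      apply Finset.sum_subset
      · intro q hq
        have h6 := mem_PI.1 hq
        exact mem_PI.2 ⟨⟨h6.1.1, h6.1.2.trans (Nat.div_le_self _ _)⟩, h6.2⟩
      · intro q hq hq'
        have h6 := mem_PI.1 hq
        have h7 : Y / p < q := by
          by_contra hcon
          exact hq' (mem_PI.2 ⟨⟨h6.1.1, by omega⟩, h6.2⟩)
        have h8 : Y / q / p = 0 := by
          rw [Nat.div_div_eq_div_mul]
          apply Nat.div_eq_of_lt
          have := (Nat.div_lt_iff_lt_mul hpp.pos).1 h7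
          exact this
        rw [h8, Nat.cast_zero]
    rw [h5, Finset.mul_sum, Finset.mul_sum]
    apply Finset.sum_le_sum
    intro q hq
    rw [Nat.div_div_eq_div_mul]
    refine Nat.cast_div_le.trans ?_
    push_cast
    apply le_of_eq
    rw [div_mul_eq_div_div]
    ring
  linarith

theorem PI_empty_of_le {a b : ℕ} (h : b ≤ a) : PI a b = ∅ := by
  unfold PI
  rw [Finset.Ioc_eq_empty (by omega)]
  simp

theorem tangent (u u0 : ℝ) (h : u < 2) (h0 : u0 < 2) :
    Real.log (2 - u) ≤ (Real.log (2 - u0) + u0 / (2 - u0)) - u / (2 - u0) := by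
  have h1 : 0 < 2 - u := by linarith
  have h2 : 0 < 2 - u0 := by linarith
  have h3 := Real.log_le_sub_one_of_pos (div_pos h1 h2)
  rw [Real.log_div h1.ne' h2.ne'] at h3
  have h4 : (2 - u) / (2 - u0) - 1 = u0 / (2 - u0) - u / (2 - u0) := by
    field_simp
    ring
  linarith

/-- the inner sum -/
theorem inner_bd (lam : ℝ) (hlam : 0 < lam) (K : ℝ) (hK : 1 ≤ K) (δ : ℝ) (hδ : 0 < δ) : ∀ᶠ L : ℝ in atTop,
    ∀ p : ℕ, p.Prime → (p : ℝ) ≤ L → ∑ q ∈ PI ⌊K * L⌋₊ (Yf lam L / p), (1 : ℝ) / q ≤
      Real.log (2 - Real.log p / Real.log L) + δ := by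
  obtain ⟨M, hM⟩ := R1_real
  have h1 : ∀ᶠ x : ℝ in atTop, |R1 ⌊x⌋₊ - Real.log (Real.log x) - M| < δ / 3 := by
    have := Metric.tendsto_nhds.1 hM (δ / 3) (by linarith)
    filter_upwards [this] with x hx
    rwa [Real.dist_eq] at hx
  obtain ⟨x0, hx0⟩ := eventually_atTop.1 h1
  have h2 : ∀ᶠ L : ℝ in atTop, |Real.log lam| * 3 / δ ≤ Real.log L :=
    Real.tendsto_log_atTop.eventually_ge_atTop _
  filter_upwards [h2, eventually_gt_atTop (3 : ℝ), eventually_ge_atTop (x0 + 1)] with L h3 h4 h5
  intro p hp hpL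
  have hL1 : 1 < L := by linarith
  have hlog := Real.log_pos hL1
  have hp1 : (1 : ℝ) < p := by exact_mod_cast hp.one_lt
  have hlp : 0 < Real.log p := Real.log_pos hp1
  have hu1 : Real.log p / Real.log L ≤ 1 := by
    rw [div_le_one hlog]
    exact Real.log_le_log (by linarith) hpL
  rcases le_or_gt ⌊K * L⌋₊ (Yf lam L / p) with h6 | h6
  · rw [sum_PI_inv h6]
    set x1 : ℝ := (Yf lam L : ℝ) / p with hx1
    have hfl : ⌊x1⌋₊ = Yf lam L / p := Nat.floor_div_eq_div _ _
    have hKL : L ≤ K * L := by nlinarith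
    have h7 : K * L - 1 < x1 := by
      have h8 : K * L < ⌊K * L⌋₊ + 1 := Nat.lt_floor_add_one _
      have h9 : (⌊K * L⌋₊ : ℝ) ≤ (Yf lam L / p : ℕ) := by exact_mod_cast h6
      have h10 : ((Yf lam L / p : ℕ) : ℝ) ≤ x1 := Nat.cast_div_le
      linarith
    have h8 := hx0 x1 (by linarith)
    have h9 := hx0 (K * L) (by linarith)
    rw [hfl, abs_lt] at h8
    rw [abs_lt] at h9
    have hx1pos : 1 < x1 := by linarith
    have hlx1 : 0 < Real.log x1 := Real.log_pos hx1pos
    have hlKL : Real.log L ≤ Real.log (K * L) := Real.log_le_log (by linarith) hKL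
    have h10 : Real.log x1 ≤ |Real.log lam| + 2 * Real.log L - Real.log p := by
      have h11 : x1 ≤ lam * L ^ 2 / p := by
        rw [hx1]
        gcongr
        exact Nat.floor_le (by positivity)
      calc Real.log x1 ≤ Real.log (lam * L ^ 2 / p) := Real.log_le_log (by linarith) h11
        _ = Real.log lam + 2 * Real.log L - Real.log p := by
            rw [Real.log_div (by positivity) (by positivity), Real.log_mul (by positivity) (by positivity), Real.log_pow]
            push_cast; ring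
        _ ≤ _ := by
            have := le_abs_self (Real.log lam)
            linarith
    have h12 : Real.log (Real.log x1) - Real.log (Real.log (K * L)) ≤
        Real.log (2 - Real.log p / Real.log L) + δ / 3 := by
      have h13 : 0 < 2 - Real.log p / Real.log L := by linarith
      have h14 : Real.log (Real.log x1) ≤ Real.log ((2 - Real.log p / Real.log L + δ / 3) * Real.log L) := by
        apply Real.log_le_log hlx1
        refine h10.trans ?_
        have h15 : |Real.log lam| ≤ δ / 3 * Real.log L := by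
          rw [div_le_iff₀ hδ] at h3
          linarith
        have h16 : (2 - Real.log p / Real.log L + δ / 3) * Real.log L = 2 * Real.log L - Real.log p + δ / 3 * Real.log L := by
          field_simp
        rw [h16]
        linarith
      rw [Real.log_mul (by linarith) hlog.ne'] at h14
      have h17 : Real.log (2 - Real.log p / Real.log L + δ / 3) ≤ Real.log (2 - Real.log p / Real.log L) + δ / 3 := by
        have h18 : 2 - Real.log p / Real.log L + δ / 3 ≤ (2 - Real.log p / Real.log L) * (1 + δ / 3) := by nlinarith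
        calc Real.log (2 - Real.log p / Real.log L + δ / 3) ≤ Real.log ((2 - Real.log p / Real.log L) * (1 + δ / 3)) :=
              Real.log_le_log (by linarith) h18
          _ = Real.log (2 - Real.log p / Real.log L) + Real.log (1 + δ / 3) := Real.log_mul h13.ne' (by linarith)
          _ ≤ _ := by
              have := Real.log_le_sub_one_of_pos (show 0 < 1 + δ / 3 by linarith)
              linarith
      have h19 : Real.log (Real.log L) ≤ Real.log (Real.log (K * L)) := Real.log_le_log hlog hlKL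
      linarith
    linarith
  · rw [PI_empty_of_le h6.le, Finset.sum_empty]
    have h13 : 1 ≤ 2 - Real.log p / Real.log L := by linarith
    have := Real.log_nonneg h13
    linarith

/-- one cell -/
theorem cell_bd (a b : ℕ) (hab : a ≤ b) (L u0 : ℝ) (hL : 1 < L) (hb : (b : ℝ) ≤ L) (h0 : u0 < 2) :
    ∑ p ∈ PI a b, (1 : ℝ) / p * Real.log (2 - Real.log p / Real.log L) ≤
      (Real.log (2 - u0) + u0 / (2 - u0)) * (R1 b - R1 a) - 1 / (2 - u0) * ((R2 b - R2 a) / Real.log L) := by
  rw [← sum_PI_inv hab, ← sum_PI_log hab, Finset.mul_sum, Finset.sum_div, Finset.mul_sum, ← Finset.sum_sub_distrib]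
  apply Finset.sum_le_sum
  intro p hp
  have h1 := mem_PI.1 hp
  have hlog := Real.log_pos hL
  have hp1 : (1 : ℝ) < p := by exact_mod_cast h1.2.one_lt
  have hpb : (p : ℝ) ≤ b := by exact_mod_cast h1.1.2
  have h2 : Real.log p / Real.log L ≤ 1 := by
    rw [div_le_one hlog]
    exact Real.log_le_log (by linarith) (by linarith)
  have h3 := tangent (Real.log p / Real.log L) u0 (by linarith) h0
  have h4 : (0 : ℝ) < p := by linarith
  have h5 : 0 < 2 - u0 := by linarith
  calc (1 : ℝ) / p * Real.log (2 - Real.log p / Real.log L) ≤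
      1 / p * ((Real.log (2 - u0) + u0 / (2 - u0)) - Real.log p / Real.log L / (2 - u0)) := by gcongr
    _ = _ := by field_simp

end Pool.Agent.H510R2.Maier
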