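import Mathlib
import Pool.Agent.H50.G.S.H510R2.Maier.MA1
/-! The Maier matrix: rows `n ≡ r (mod W)`. -/

open Finset Filter Topology
open Pool.Agent.H378R2

namespace Pool.Agent.H510R2.Maier

/-- `∑ log p` over the primes of `(n, n + Y]` -/
noncomputable def thw (n Y : ℕ) : ℝ := ∑ h ∈ Icc 1 Y, th (n + h)

theorem thw_nonneg (n Y : ℕ) : 0 ≤ thw n Y := Finset.sum_nonneg fun _ _ => th_nonneg _

/-- number of `h ≤ Y` with `r + h` prime to `W` -/
noncomputable def VV (W r Y : ℕ) : ℕ := ((Icc 1 Y).filter (fun h => (r + h).Coprime W)).card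

theorem VV_le (W r Y : ℕ) : VV W r Y ≤ Y := by
  unfold VV
  refine (Finset.card_filter_le _ _).trans ?_
  simp

theorem matrix_sum (X : ℝ) (hX : 4 ≤ X) (W r Y : ℕ) (hY : (Y : ℝ) ≤ X / 2)
    (hW : ∀ p : ℕ, p.Prime → p ∣ W → (p : ℝ) ≤ X) (E : ℝ)
    (hE : ∀ b : ℕ, b.Coprime W → |EPhi X W b| ≤ E) :
    |∑ n ∈ Icc 1 ⌊3 * X⌋₊, nu X W r n * thw n Y - VV W r Y * (LPhi X * (1 / (Nat.totient W : ℝ)))| ≤
      Y * (E + (4 * Y * Real.log (4 * X) + 4 * Real.sqrt X * Real.log (4 * X))) := by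
  classical
  set N := ⌊3 * X⌋₊ with hN
  have hX0 : 0 < X := by linarith
  have hl : 0 ≤ Real.log (4 * X) := Real.log_nonneg (by linarith)
  have h1 : ∑ n ∈ Icc 1 N, nu X W r n * thw n Y =
      ∑ h ∈ Icc 1 Y, ∑ n ∈ Icc 1 N, nu X W r n * th (n + h) := by
    unfold thw
    simp_rw [Finset.mul_sum]
    exact Finset.sum_comm
  have h2 : (VV W r Y : ℝ) * (LPhi X * (1 / (Nat.totient W : ℝ))) =
      ∑ h ∈ Icc 1 Y, if (r + h).Coprime W then LPhi X * (1 / (Nat.totient W : ℝ)) else 0 := by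
    unfold VV
    rw [← Finset.sum_filter, Finset.sum_const, nsmul_eq_mul]
  rw [h1, h2, ← Finset.sum_sub_distrib]
  refine (Finset.abs_sum_le_sum_abs _ _).trans ?_
  have hE0 : 0 ≤ E := (abs_nonneg _).trans (hE 1 (Nat.coprime_one_left W))
  have h3 : ∀ h ∈ Icc 1 Y, |∑ n ∈ Icc 1 N, nu X W r n * th (n + h) -
      (if (r + h).Coprime W then LPhi X * (1 / (Nat.totient W : ℝ)) else 0)| ≤
      E + (4 * Y * Real.log (4 * X) + 4 * Real.sqrt X * Real.log (4 * X)) := by
    intro h hh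
    rw [Finset.mem_Icc] at hh
    have hhY : (h : ℝ) ≤ Y := by exact_mod_cast hh.2
    have hsq : 0 ≤ 4 * Real.sqrt X * Real.log (4 * X) := by positivity
    by_cases hc : (r + h).Coprime W
    · rw [if_pos hc]
      have a1 := shift_bound X hX W r h (by linarith) (fun _ => (1 : ℝ)) 1 (fun _ => by simp)
      simp only [mul_one, one_mul] at a1
      have a2 := hE (r + h) hc
      rw [EPhi_eq] at a2
      have a3 : |∑ n ∈ Icc 1 N, nu X W r n * th (n + h) - LPhi X * (1 / (Nat.totient W : ℝ))| ≤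
          ((4 * h) * Real.log (4 * X) + 4 * Real.sqrt X * Real.log (4 * X)) + E := by
        have a4 : ∑ n ∈ (Icc 1 N).filter (fun n => n ≡ r + h [MOD W]),
            Phi (n / X) * ArithmeticFunction.vonMangoldt n =
            ∑ n ∈ Icc 1 N, (if n ≡ r + h [MOD W] then Phi (n / X) * ArithmeticFunction.vonMangoldt n else 0) := by
          rw [Finset.sum_filter]
        rw [a4] at a2
        rw [abs_le] at a1 a2 ⊢
        constructor
        · linarith [a1.1, a2.1]
        · linarith [a1.2, a2.2]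
      refine a3.trans ?_
      have : (4 * h) * Real.log (4 * X) ≤ 4 * Y * Real.log (4 * X) :=
        mul_le_mul_of_nonneg_right (by linarith) hl
      linarith
    · rw [if_neg hc, sub_zero]
      have hz : ∑ n ∈ Icc 1 N, nu X W r n * th (n + h) = 0 := by
        apply Finset.sum_eq_zero
        intro n hn
        unfold nu
        split_ifs with hmod
        · rcases le_or_gt (n : ℝ) X with hnX | hnX
          · rw [Phi_eq_zero_of_le (by positivity) (by rw [div_le_one hX0]; exact hnX), zero_mul]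
          · unfold th
            split_ifs with hp
            · exfalso
              obtain ⟨p, hpp, hp1, hp2⟩ := Nat.Prime.not_coprime_iff_dvd.1 hc
              have hmod2 : n + h ≡ r + h [MOD W] := Nat.ModEq.add_right _ hmod
              have hmod3 : n + h ≡ r + h [MOD p] := hmod2.of_dvd hp2
              have hdvd : p ∣ n + h := (Nat.ModEq.dvd_iff hmod3 dvd_rfl).2 hp1
              have heq : p = n + h := (Nat.prime_dvd_prime_iff_eq hpp hp).1 hdvd
              have := hW p hpp hp2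
              rw [heq] at this
              push_cast at this
              have : (0 : ℝ) ≤ h := by positivity
              linarith
            · rw [mul_zero]
        · rw [zero_mul]
      rw [hz, abs_zero]
      positivity
  refine (Finset.sum_le_sum h3).trans ?_
  rw [Finset.sum_const, Nat.card_Icc, nsmul_eq_mul]
  simp

theorem nu_eq_zero {X : ℝ} (hX : 0 < X) {W r n : ℕ} (h : ¬ (X < n ∧ (n : ℝ) < 3 * X)) : nu X W r n = 0 := by
  unfold nu
  split_ifs with hmod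
  · rcases le_or_gt (n : ℝ) X with hnX | hnX
    · exact Phi_eq_zero_of_le (by positivity) (by rw [div_le_one hX]; exact hnX)
    · apply Phi_eq_zero_of_ge
      have h2 : 3 * X ≤ n := by
        by_contra h3
        exact h ⟨hnX, not_le.1 h3⟩
      rw [le_div_iff₀ hX]
      have := exp_one_lt_three'
      nlinarith
  · rfl

theorem sum_nu (X : ℝ) (hX : 4 ≤ X) (W r : ℕ) (hW : 0 < W) (hWX : (W : ℝ) ≤ X) :
    |∑ n ∈ Icc 1 ⌊3 * X⌋₊, nu X W r n - MPhi X * (1 / W)| ≤ 5 := by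
  have h := phi_sum_class X hX W r hW hWX
  rw [Finset.sum_filter] at h
  exact h

/-- averaging, upper rows -/
theorem exists_upper (X : ℝ) (hX : 4 ≤ X) (W r Y : ℕ) (T : ℝ)
    (h : T * ∑ n ∈ Icc 1 ⌊3 * X⌋₊, nu X W r n ≤ ∑ n ∈ Icc 1 ⌊3 * X⌋₊, nu X W r n * thw n Y)
    (hpos : 0 < ∑ n ∈ Icc 1 ⌊3 * X⌋₊, nu X W r n) :
    ∃ n : ℕ, X < n ∧ (n : ℝ) < 3 * X ∧ T ≤ thw n Y := by
  by_contra hcon
  push Not at hcon
  have hX0 : 0 < X := by linarith
  have h1 : ∑ n ∈ Icc 1 ⌊3 * X⌋₊, nu X W r n * thw n Y < ∑ n ∈ Icc 1 ⌊3 * X⌋₊, nu X W r n * T := by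
    apply Finset.sum_lt_sum
    · intro n _
      by_cases hn : X < n ∧ (n : ℝ) < 3 * X
      · exact mul_le_mul_of_nonneg_left (hcon n hn.1 hn.2).le (nu_nonneg _ _ _ _)
      · rw [nu_eq_zero hX0 hn, zero_mul, zero_mul]
    · obtain ⟨n, hn, hn2⟩ := Finset.exists_lt_of_sum_lt (s := Icc 1 ⌊3 * X⌋₊) (f := fun _ => (0 : ℝ))
        (g := fun n => nu X W r n) (by simpa using hpos)
      refine ⟨n, hn, ?_⟩
      have hn3 : X < n ∧ (n : ℝ) < 3 * X := by
        by_contra h4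
        rw [nu_eq_zero hX0 h4] at hn2
        exact lt_irrefl _ hn2
      exact mul_lt_mul_of_pos_left (hcon n hn3.1 hn3.2) hn2
  rw [← Finset.sum_mul] at h1
  linarith

/-- averaging, lower rows -/
theorem exists_lower (X : ℝ) (hX : 4 ≤ X) (W r Y : ℕ) (T : ℝ)
    (h : ∑ n ∈ Icc 1 ⌊3 * X⌋₊, nu X W r n * thw n Y ≤ T * ∑ n ∈ Icc 1 ⌊3 * X⌋₊, nu X W r n)
    (hpos : 0 < ∑ n ∈ Icc 1 ⌊3 * X⌋₊, nu X W r n) :
    ∃ n : ℕ, X < n ∧ (n : ℝ) < 3 * X ∧ thw n Y ≤ T := by
  by_contra hcon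
  push Not at hcon
  have hX0 : 0 < X := by linarith
  have h1 : ∑ n ∈ Icc 1 ⌊3 * X⌋₊, nu X W r n * T < ∑ n ∈ Icc 1 ⌊3 * X⌋₊, nu X W r n * thw n Y := by
    apply Finset.sum_lt_sum
    · intro n _
      by_cases hn : X < n ∧ (n : ℝ) < 3 * X
      · exact mul_le_mul_of_nonneg_left (hcon n hn.1 hn.2).le (nu_nonneg _ _ _ _)
      · rw [nu_eq_zero hX0 hn, zero_mul, zero_mul]
    · obtain ⟨n, hn, hn2⟩ := Finset.exists_lt_of_sum_lt (s := Icc 1 ⌊3 * X⌋₊) (f := fun _ => (0 : ℝ))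
        (g := fun n => nu X W r n) (by simpa using hpos)
      refine ⟨n, hn, ?_⟩
      have hn3 : X < n ∧ (n : ℝ) < 3 * X := by
        by_contra h4
        rw [nu_eq_zero hX0 h4] at hn2
        exact lt_irrefl _ hn2
      exact mul_lt_mul_of_pos_left (hcon n hn3.1 hn3.2) hn2
  rw [← Finset.sum_mul] at h1
  linarith

end Pool.Agent.H510R2.Maier
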