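import Mathlib
import Pool.Agent.H50.G.S.H510R2.Maier.MA2
import Pool.Agent.H50.G.S.H378R2.M7j
/-! Rows with many / few primes. -/

open Finset Filter Topology
open Pool.Agent.H378R2

namespace Pool.Agent.H510R2.Maier

theorem single_bound (X : ℝ) (W ps A : ℕ) (hX : 1 ≤ X) (Bd : ℝ)
    (h : ∀ b : ℕ → ℕ, (∀ q, 1 ≤ q → (b q).Coprime (W * q)) →
      ∑ q ∈ (Icc 1 ⌊X ^ (1 / 100 : ℝ)⌋₊).filter
          (fun q => Squarefree q ∧ q.Coprime (W * ps)),
        (q.divisors.card : ℝ) ^ A * |EPhi X (W * q) (b q)| ≤ Bd) :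
    ∀ b : ℕ, b.Coprime W → |EPhi X W b| ≤ Bd := by
  intro b hb
  have h1 := h (fun q => if q = 1 then b else 1) (by
    intro q hq
    by_cases hq1 : q = 1
    · subst hq1; simpa using hb
    · simp [hq1])
  have hmem : 1 ∈ (Icc 1 ⌊X ^ (1 / 100 : ℝ)⌋₊).filter
          (fun q => Squarefree q ∧ q.Coprime (W * ps)) := by
    rw [Finset.mem_filter, Finset.mem_Icc]
    refine ⟨⟨le_rfl, ?_⟩, squarefree_one, Nat.coprime_one_left _⟩
    apply Nat.le_floor
    rw [Nat.cast_one]
    exact Real.one_le_rpow hX (by norm_num)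
  have h2 := Finset.single_le_sum (f := fun q : ℕ => (q.divisors.card : ℝ) ^ A *
      |EPhi X (W * q) (if q = 1 then b else 1)|) (fun q _ => by positivity) hmem
  refine le_trans ?_ (h2.trans h1)
  simp

theorem ev_small : ∀ᶠ L : ℝ in atTop,
    L ^ 3 * (4 * L ^ 3 * (2 * L) + 4 * Real.exp (L / 2) * (2 * L)) * Real.exp (L / 700) ≤ Real.exp L := by
  have h1 : Tendsto (fun L : ℝ => L ^ 7 * Real.exp (-(1 / 4) * L)) atTop (𝓝 0) := by
    have := Real.tendsto_pow_mul_exp_neg_atTop_nhds_zero 7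
    have h2 := this.comp (tendsto_id.const_mul_atTop (show (0 : ℝ) < 1 / 4 by norm_num))
    have h3 := h2.const_mul ((4 : ℝ) ^ 7)
    rw [mul_zero] at h3
    refine h3.congr fun L => ?_
    simp only [Function.comp, id]
    rw [show -(1 / 4) * L = -(1 / 4 * L) by ring]
    ring
  have h2 : ∀ᶠ L : ℝ in atTop, L ^ 7 * Real.exp (-(1 / 4) * L) < 1 / 16 :=
    h1.eventually_lt_const (by norm_num)
  filter_upwards [h2, eventually_ge_atTop (1 : ℝ)] with L h3 hL
  have hL0 : 0 < L := by linarith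
  have e1 : L ^ 3 * (4 * L ^ 3 * (2 * L) + 4 * Real.exp (L / 2) * (2 * L)) ≤ 16 * L ^ 7 * Real.exp (L / 2) := by
    have a1 : 1 ≤ Real.exp (L / 2) := Real.one_le_exp (by positivity)
    have a2 : L ^ 4 ≤ L ^ 7 := pow_le_pow_right₀ hL (by norm_num)
    have a3 : 0 < L ^ 7 := by positivity
    have : L ^ 3 * (4 * L ^ 3 * (2 * L) + 4 * Real.exp (L / 2) * (2 * L)) = 8 * L ^ 7 + 8 * L ^ 4 * Real.exp (L / 2) := by
      ring
    rw [this]
    have a4 : 8 * L ^ 7 ≤ 8 * L ^ 7 * Real.exp (L / 2) := by nlinarith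
    have a5 : 8 * L ^ 4 * Real.exp (L / 2) ≤ 8 * L ^ 7 * Real.exp (L / 2) := by gcongr
    linarith
  calc L ^ 3 * (4 * L ^ 3 * (2 * L) + 4 * Real.exp (L / 2) * (2 * L)) * Real.exp (L / 700)
      ≤ 16 * L ^ 7 * Real.exp (L / 2) * Real.exp (L / 700) := by gcongr
    _ ≤ 16 * L ^ 7 * Real.exp (L / 2) * Real.exp (L / 4) := by
        gcongr
        linarith
    _ = 16 * (L ^ 7 * Real.exp (-(1 / 4) * L)) * Real.exp L := by
        rw [show Real.exp L = Real.exp (L / 2) * Real.exp (L / 4) * Real.exp (L / 4) by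
          rw [← Real.exp_add, ← Real.exp_add]; congr 1; ring]
        have : Real.exp (-(1 / 4) * L) * Real.exp (L / 4) = 1 := by
          rw [← Real.exp_add]; simp; ring
        calc 16 * L ^ 7 * Real.exp (L / 2) * Real.exp (L / 4)
            = 16 * L ^ 7 * Real.exp (L / 2) * Real.exp (L / 4) * 1 := by ring
          _ = 16 * L ^ 7 * Real.exp (L / 2) * Real.exp (L / 4) * (Real.exp (-(1 / 4) * L) * Real.exp (L / 4)) := by rw [this]
          _ = _ := by ring
    _ ≤ 1 * Real.exp L := by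
        apply mul_le_mul_of_nonneg_right _ (Real.exp_pos _).le
        linarith
    _ = Real.exp L := one_mul _

set_option maxHeartbeats 4000000 in
theorem rows (ε : ℝ) (hε : 0 < ε) (hε1 : ε ≤ 1) (Z : ℕ) : ∃ X0 : ℝ, ∀ X : ℝ, X0 ≤ X →
    ∃ (ps : ℕ) (S : Finset ℕ), GoodP Z ps ∧ GoodS X S ∧
      ∀ r Y : ℕ, (Y : ℝ) ≤ (Real.log X) ^ 3 →
        (∃ n : ℕ, X < n ∧ (n : ℝ) < 3 * X ∧
          (1 - ε) * (((VV (WW X S ps) r Y : ℝ) - 80) / BE (PW X S ps)) ≤ thw n Y) ∧
        (∃ n : ℕ, X < n ∧ (n : ℝ) < 3 * X ∧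
          thw n Y ≤ (1 + ε) * (((VV (WW X S ps) r Y : ℝ) + 80) / BE (PW X S ps))) := by
  obtain ⟨X1, hX1⟩ := bvrel_holds 3 Z
  have hlogtop : Tendsto Real.log atTop atTop := Real.tendsto_log_atTop
  have ev1 := lphi_mphi (ε / 80) (by positivity)
  have ev2 : ∀ᶠ X : ℝ in atTop, (Real.log X) ^ 3 * (4 * (Real.log X) ^ 3 * (2 * Real.log X) +
      4 * Real.exp (Real.log X / 2) * (2 * Real.log X)) * Real.exp (Real.log X / 700) ≤ Real.exp (Real.log X) :=
    hlogtop.eventually ev_small
  have ev3 : ∀ᶠ X : ℝ in atTop, (Real.log X) ^ 3 ≤ X / 2 := by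
    have h1 := (Real.isLittleO_pow_log_id_atTop (n := 3)).bound (show (0 : ℝ) < 1 / 2 by norm_num)
    filter_upwards [h1, eventually_ge_atTop (1 : ℝ)] with X h2 h3
    rw [Real.norm_of_nonneg (pow_nonneg (Real.log_nonneg h3) 3), id, Real.norm_of_nonneg (by linarith)] at h2
    linarith
  have ev4 : ∀ᶠ X : ℝ in atTop, 400 / ε * Real.exp (Real.log X / 700) ≤ X := by
    have h1 : Tendsto (fun L : ℝ => Real.exp (-(699 / 700) * L)) atTop (𝓝 0) := by
      apply Real.tendsto_exp_atBot.comp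
      exact tendsto_id.const_mul_atTop_of_neg (by norm_num)
    have h2 : ∀ᶠ X : ℝ in atTop, Real.exp (-(699 / 700) * Real.log X) < ε / 400 :=
      hlogtop.eventually (h1.eventually_lt_const (by positivity))
    filter_upwards [h2, eventually_gt_atTop (0 : ℝ)] with X h3 h4
    have h5 : Real.exp (Real.log X / 700) = X * Real.exp (-(699 / 700) * Real.log X) := by
      nth_rewrite 2 [← Real.exp_log h4]
      rw [← Real.exp_add]
      congr 1
      ring
    rw [h5]
    calc 400 / ε * (X * Real.exp (-(699 / 700) * Real.log X)) ≤ 400 / ε * (X * (ε / 400)) := by gcongr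
      _ = X := by field_simp
  have hev := ((((ev1.and ev2).and ev3).and ev4).and (eventually_ge_atTop X1)).and
    ((eventually_ge_atTop (40 : ℝ)).and (hlogtop.eventually_ge_atTop (2 : ℝ)))
  obtain ⟨X0, hX0⟩ := eventually_atTop.1 hev
  refine ⟨X0, fun X hX => ?_⟩
  obtain ⟨⟨⟨⟨⟨h1, h2⟩, h3⟩, h4⟩, h5⟩, h6, h7⟩ := hX0 X hX
  obtain ⟨ps, S, hps, hS, hbv⟩ := hX1 X h5
  refine ⟨ps, S, hps, hS, fun r Y hY => ?_⟩
  have hXpos : 0 < X := by linarith
  set W := WW X S ps with hW
  set B := BE (PW X S ps) with hB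
  have hPWp : ∀ p ∈ PW X S ps, p.Prime := fun p hp => (mem_PW.1 hp).2.1
  have hBpos : 0 < B := BE_pos hPWp
  have hW0 : 0 < W := WW_pos X S ps
  have hWr : (0 : ℝ) < W := by exact_mod_cast hW0
  have hφ : (W.totient : ℝ) = W * B := totient_WW X S ps
  have hφ0 : (0 : ℝ) < W.totient := by rw [hφ]; positivity
  have hφle : (W.totient : ℝ) ≤ W := by exact_mod_cast Nat.totient_le W
  have hWle : (W : ℝ) ≤ Real.exp (Real.log X / 700) := WW_le X (by linarith) S ps
  set L := Real.log X with hL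
  have hexpL : Real.exp L = X := Real.exp_log hXpos
  have hsqrt : Real.sqrt X = Real.exp (L / 2) := by
    rw [← hexpL, Real.sqrt_eq_iff_mul_self_eq (Real.exp_pos _).le (Real.exp_pos _).le, ← Real.exp_add]
    congr 1; ring
  have hl4 : Real.log (4 * X) ≤ 2 * L := by
    rw [Real.log_mul (by norm_num) hXpos.ne']
    have : Real.log 4 ≤ 2 := by
      rw [show (4 : ℝ) = 2 ^ 2 by norm_num, Real.log_pow]
      have := Real.log_two_lt_d9
      push_cast; linarith
    linarith
  have hl40 : 0 ≤ Real.log (4 * X) := Real.log_nonneg (by linarith)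
  set E := X / ((W.totient : ℝ) * L ^ 3) with hE
  have hEb := single_bound X W ps 3 (by linarith) E hbv
  have hWp : ∀ p : ℕ, p.Prime → p ∣ W → (p : ℝ) ≤ X := by
    intro p hp hpW
    have h8 := (mem_PW.1 ((prime_dvd_WW hp).1 hpW)).1
    have h9 : (p : ℝ) ≤ yy X := by exact_mod_cast h8
    have h10 : (yy X : ℝ) ≤ L / 1000 := Nat.floor_le (by positivity)
    have h11 : L ≤ X := by
      have := Real.add_one_le_exp L
      linarith
    linarith
  have hmat := matrix_sum X (by linarith) W r Y (by linarith) hWp E hEb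
  have hM1 := MPhi_ge X h6
  set M := MPhi X with hM
  have hM0 : 0 < M := by linarith
  -- the error
  have herr : Y * (E + (4 * Y * Real.log (4 * X) + 4 * Real.sqrt X * Real.log (4 * X))) ≤ 40 * (M / W.totient) := by
    have hY0 : (0 : ℝ) ≤ Y := Nat.cast_nonneg _
    have b1 : Y * E ≤ X / W.totient := by
      calc Y * E ≤ L ^ 3 * E := by gcongr
        _ = X / W.totient := by rw [hE]; field_simp
    have b2 : Y * (4 * Y * Real.log (4 * X) + 4 * Real.sqrt X * Real.log (4 * X)) ≤ X / W.totient := by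
      rw [le_div_iff₀ hφ0]
      calc Y * (4 * Y * Real.log (4 * X) + 4 * Real.sqrt X * Real.log (4 * X)) * W.totient
          ≤ L ^ 3 * (4 * L ^ 3 * (2 * L) + 4 * Real.exp (L / 2) * (2 * L)) * Real.exp (L / 700) := by
            rw [hsqrt]
            have := hφle.trans hWle
            gcongr
        _ ≤ X := by rw [← hexpL]; exact h2
    have b3 : X / W.totient ≤ 20 * (M / W.totient) := by
      rw [mul_div_assoc']
      gcongr
      linarith
    calc Y * (E + (4 * Y * Real.log (4 * X) + 4 * Real.sqrt X * Real.log (4 * X)))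
        = Y * E + Y * (4 * Y * Real.log (4 * X) + 4 * Real.sqrt X * Real.log (4 * X)) := by ring
      _ ≤ X / W.totient + X / W.totient := add_le_add b1 b2
      _ ≤ _ := by linarith
  have hLM : |LPhi X - M| ≤ ε / 4 * M := by
    refine h1.trans ?_
    nlinarith
  rw [abs_le] at hLM
  have hnu := sum_nu X (by linarith) W r hW0 (by
    have : (400 : ℝ) ≤ 400 / ε := by
      rw [le_div_iff₀ hε]; nlinarith
    nlinarith [Real.exp_pos (L / 700)])
  rw [abs_le] at hnu hmat
  set N1 := ∑ n ∈ Icc 1 ⌊3 * X⌋₊, nu X W r n with hN1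
  set T1 := ∑ n ∈ Icc 1 ⌊3 * X⌋₊, nu X W r n * thw n Y with hT1
  have hMW : 5 ≤ ε / 4 * (M / W) := by
    have c1 : 400 / ε * W ≤ X := by
      refine le_trans ?_ h4
      gcongr
    have c2 : 400 * W ≤ ε * X := by
      calc 400 * (W : ℝ) = ε * (400 / ε * W) := by field_simp
        _ ≤ ε * X := by gcongr
    have c3 : 20 ≤ ε * (M / W) := by
      rw [mul_div_assoc', le_div_iff₀ hWr]
      nlinarith
    linarith
  have hMW' : M * (1 / (W : ℝ)) = M / W := by ring
  rw [hMW'] at hnu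
  have hN1lo : (1 - ε / 4) * (M / W) ≤ N1 := by linarith [hnu.1]
  have hN1hi : N1 ≤ (1 + ε / 4) * (M / W) := by linarith [hnu.2]
  have hMWpos : 0 < M / W := by positivity
  have hN1pos : 0 < N1 := by
    refine lt_of_lt_of_le ?_ hN1lo
    apply mul_pos _ hMWpos
    linarith
  set V : ℝ := (VV W r Y : ℝ) with hV
  have hV0 : 0 ≤ V := Nat.cast_nonneg _
  have hMφ : M / W = B * (M / W.totient) := by
    rw [hφ]; field_simp
  have hK0 : 0 < M / W.totient := by positivity
  have hT1lo : (1 - ε / 4) * V * (M / W.totient) - 40 * (M / W.totient) ≤ T1 := by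
    have d1 : (1 - ε / 4) * V * (M / W.totient) ≤ V * (LPhi X * (1 / W.totient)) := by
      have : (1 - ε / 4) * M ≤ LPhi X := by linarith [hLM.1]
      calc (1 - ε / 4) * V * (M / W.totient) = V * (((1 - ε / 4) * M) * (1 / W.totient)) := by ring
        _ ≤ _ := by gcongr
    linarith [hmat.1]
  have hT1hi : T1 ≤ (1 + ε / 4) * V * (M / W.totient) + 40 * (M / W.totient) := by
    have d1 : V * (LPhi X * (1 / W.totient)) ≤ (1 + ε / 4) * V * (M / W.totient) := by
      have : LPhi X ≤ (1 + ε / 4) * M := by linarith [hLM.2]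
      calc V * (LPhi X * (1 / W.totient)) ≤ V * (((1 + ε / 4) * M) * (1 / W.totient)) := by gcongr
        _ = _ := by ring
    linarith [hmat.2]
  constructor
  · apply exists_upper X (by linarith) W r Y _ _ hN1pos
    rw [← hN1, ← hT1]
    rcases le_or_gt V 80 with hV80 | hV80
    · have e1 : (1 - ε) * ((V - 80) / B) ≤ 0 := by
        apply mul_nonpos_of_nonneg_of_nonpos (by linarith)
        apply div_nonpos_of_nonpos_of_nonneg (by linarith) hBpos.le
      have e2 : 0 ≤ T1 := Finset.sum_nonneg fun n _ => mul_nonneg (nu_nonneg _ _ _ _) (thw_nonneg _ _)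
      nlinarith
    · refine le_trans ?_ hT1lo
      calc (1 - ε) * ((V - 80) / B) * N1 ≤ (1 - ε) * ((V - 80) / B) * ((1 + ε / 4) * (M / W)) := by
            apply mul_le_mul_of_nonneg_left hN1hi
            apply mul_nonneg (by linarith)
            exact div_nonneg (by linarith) hBpos.le
        _ = ((1 - ε) * (1 + ε / 4)) * (V - 80) * (M / W.totient) := by
            rw [hMφ]; field_simp
        _ ≤ (1 - ε / 4) * (V - 80) * (M / W.totient) := by
            have q1 : (1 - ε) * (1 + ε / 4) ≤ 1 - ε / 4 := by nlinarith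
            have q2 : 0 ≤ V - 80 := by linarith
            exact mul_le_mul_of_nonneg_right (mul_le_mul_of_nonneg_right q1 q2) hK0.le
        _ ≤ _ := by nlinarith
  · apply exists_lower X (by linarith) W r Y _ _ hN1pos
    rw [← hN1, ← hT1]
    refine hT1hi.trans ?_
    calc (1 + ε / 4) * V * (M / W.totient) + 40 * (M / W.totient)
        ≤ (1 + ε / 4) * (V + 80) * (M / W.totient) := by nlinarith
      _ ≤ ((1 + ε) * (1 - ε / 4)) * (V + 80) * (M / W.totient) := by
            gcongr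
            nlinarith
      _ = (1 + ε) * ((V + 80) / B) * ((1 - ε / 4) * (M / W)) := by
            rw [hMφ]; field_simp
      _ ≤ (1 + ε) * ((V + 80) / B) * N1 := by
            apply mul_le_mul_of_nonneg_left hN1lo
            positivity

end Pool.Agent.H510R2.Maier
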