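import Mathlib
import Pool.Agent.H50.G.S.H510R2.Maier.MA3
import Pool.Agent.H50.G.S.H510R2.Maier.MA8
/-! Smaller moduli and frequency of the rows. -/

open Finset Filter Topology
open Pool.Agent.H378R2

namespace Pool.Agent.H510R2.Maier

theorem EPhi_sub (X : ℝ) (hX : 4 ≤ X) (W1 W2 : ℕ) (hW1 : 0 < W1) (hW2 : 0 < W2) (hco : W1.Coprime W2)
    (hW : ∀ p : ℕ, p.Prime → p ∣ W2 → (p : ℝ) ≤ X) (E : ℝ)
    (hE : ∀ b : ℕ, b.Coprime (W1 * W2) → |EPhi X (W1 * W2) b| ≤ E) (b : ℕ) (hb : b.Coprime W1) :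
    |EPhi X W1 b| ≤ W2.totient * E + 2 * Real.sqrt (3 * X) * Real.log (3 * X) := by
  classical
  set N := ⌊3 * X⌋₊ with hN
  set f : ℕ → ℝ := fun n => Phi (n / X) * ArithmeticFunction.vonMangoldt n with hf
  have hX0 : 0 < X := by linarith
  have hf0 : ∀ n, 0 ≤ f n := fun n => mul_nonneg (Phi_nonneg _) ArithmeticFunction.vonMangoldt_nonneg
  set I := (Icc 1 N).filter (fun n => n ≡ b [MOD W1]) with hI
  set C := (Finset.range W2).filter (fun c => c.Coprime W2) with hC
  have hsplit : ∑ n ∈ I, f n = ∑ n ∈ I.filter (fun n => n.Coprime W2), f n +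
      ∑ n ∈ I.filter (fun n => ¬ n.Coprime W2), f n := (Finset.sum_filter_add_sum_filter_not _ _ _).symm
  have hsecond : ∑ n ∈ I.filter (fun n => ¬ n.Coprime W2), f n ≤ 2 * Real.sqrt (3 * X) * Real.log (3 * X) := by
    refine le_trans ?_ (sum_nonprime_le (3 * X) (by linarith))
    rw [← hN]
    calc ∑ n ∈ I.filter (fun n => ¬ n.Coprime W2), f n
        ≤ ∑ n ∈ (I.filter (fun n => ¬ n.Coprime W2)).filter (fun n => ¬ n.Prime), f n := by
          rw [← Finset.sum_filter_add_sum_filter_not (I.filter (fun n => ¬ n.Coprime W2)) (fun n => ¬ n.Prime)]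
          have : ∑ n ∈ (I.filter (fun n => ¬ n.Coprime W2)).filter (fun n => ¬ ¬ n.Prime), f n = 0 := by
            apply Finset.sum_eq_zero
            intro n hn
            rw [Finset.mem_filter, Finset.mem_filter] at hn
            have hp : n.Prime := not_not.1 hn.2
            have hd : n ∣ W2 := by
              by_contra hcon
              exact hn.1.2 ((Nat.Prime.coprime_iff_not_dvd hp).2 hcon)
            have hle := hW n hp hd
            simp only [hf]
            rw [Phi_eq_zero_of_le (by positivity) (by rw [div_le_one hX0]; exact hle), zero_mul]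
          rw [this, add_zero]
      _ ≤ ∑ n ∈ (I.filter (fun n => ¬ n.Coprime W2)).filter (fun n => ¬ n.Prime), ArithmeticFunction.vonMangoldt n := by
          apply Finset.sum_le_sum
          intro n _
          simp only [hf]
          have h1 := Phi_le_half ((n : ℝ) / X)
          have h2 : (0 : ℝ) ≤ ArithmeticFunction.vonMangoldt n := ArithmeticFunction.vonMangoldt_nonneg
          nlinarith
      _ ≤ _ := by
          apply Finset.sum_le_sum_of_subset_of_nonneg
          · intro n hn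
            rw [Finset.mem_filter, Finset.mem_filter, hI, Finset.mem_filter] at hn
            rw [Finset.mem_filter]
            exact ⟨hn.1.1.1, hn.2⟩
          · intro n _ _
            exact ArithmeticFunction.vonMangoldt_nonneg
  have hsecond0 : 0 ≤ ∑ n ∈ I.filter (fun n => ¬ n.Coprime W2), f n := Finset.sum_nonneg fun n _ => hf0 n
  -- the classes
  have hfirst : ∑ n ∈ I.filter (fun n => n.Coprime W2), f n =
      ∑ c ∈ C, ∑ n ∈ (Icc 1 N).filter (fun n => n ≡ (Nat.chineseRemainder hco b c : ℕ) [MOD W1 * W2]), f n := by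
    rw [← Finset.sum_fiberwise_of_maps_to (s := I.filter (fun n => n.Coprime W2)) (t := C) (g := fun n => n % W2)]
    · apply Finset.sum_congr rfl
      intro c hc
      apply Finset.sum_congr _ (fun _ _ => rfl)
      ext n
      rw [hC, Finset.mem_filter, Finset.mem_range] at hc
      have hcr := (Nat.chineseRemainder hco b c).2
      rw [Finset.mem_filter, Finset.mem_filter, hI, Finset.mem_filter, Finset.mem_filter]
      constructor
      · rintro ⟨⟨⟨h1, h2⟩, h3⟩, h4⟩
        refine ⟨h1, ?_⟩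
        rw [← Nat.modEq_and_modEq_iff_modEq_mul hco]
        refine ⟨h2.trans hcr.1.symm, ?_⟩
        have h5 : n ≡ c [MOD W2] := by
          unfold Nat.ModEq
          rw [h4, Nat.mod_eq_of_lt hc.1]
        exact h5.trans hcr.2.symm
      · rintro ⟨h1, h2⟩
        rw [← Nat.modEq_and_modEq_iff_modEq_mul hco] at h2
        have h5 : n ≡ c [MOD W2] := h2.2.trans hcr.2
        refine ⟨⟨⟨h1, h2.1.trans hcr.1⟩, ?_⟩, ?_⟩
        · rw [Nat.Coprime, h5.gcd_eq]
          exact hc.2
        · unfold Nat.ModEq at h5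
          rw [h5, Nat.mod_eq_of_lt hc.1]
    · intro n hn
      rw [Finset.mem_filter] at hn
      rw [hC, Finset.mem_filter, Finset.mem_range]
      refine ⟨Nat.mod_lt _ hW2, ?_⟩
      rw [Nat.Coprime, (Nat.mod_modEq n W2).gcd_eq]
      exact hn.2
  have hCcard : C.card = W2.totient := by
    have h1 := card_shift W2 0 hW2
    simpa using h1
  have hφ : (0 : ℝ) < (W1 * W2).totient := by exact_mod_cast Nat.totient_pos.2 (Nat.mul_pos hW1 hW2)
  have hφ1 : (0 : ℝ) < W1.totient := by exact_mod_cast Nat.totient_pos.2 hW1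
  have hφ2 : (0 : ℝ) < W2.totient := by exact_mod_cast Nat.totient_pos.2 hW2
  have hmul : ((W1 * W2).totient : ℝ) = W1.totient * W2.totient := by
    rw [Nat.totient_mul hco]; push_cast; ring
  have hcls : ∑ c ∈ C, ∑ n ∈ (Icc 1 N).filter (fun n => n ≡ (Nat.chineseRemainder hco b c : ℕ) [MOD W1 * W2]), f n =
      ∑ c ∈ C, EPhi X (W1 * W2) (Nat.chineseRemainder hco b c) + LPhi X * (1 / (W1.totient : ℝ)) := by
    have h1 : ∀ c ∈ C, ∑ n ∈ (Icc 1 N).filter (fun n => n ≡ (Nat.chineseRemainder hco b c : ℕ) [MOD W1 * W2]), f n =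
        EPhi X (W1 * W2) (Nat.chineseRemainder hco b c) + LPhi X * (1 / ((W1 * W2).totient : ℝ)) := by
      intro c _
      rw [EPhi_eq]
      ring
    rw [Finset.sum_congr rfl h1, Finset.sum_add_distrib, Finset.sum_const, hCcard, nsmul_eq_mul, hmul]
    congr 1
    field_simp
  have hEsum : |∑ c ∈ C, EPhi X (W1 * W2) (Nat.chineseRemainder hco b c)| ≤ W2.totient * E := by
    refine (Finset.abs_sum_le_sum_abs _ _).trans ?_
    calc ∑ c ∈ C, |EPhi X (W1 * W2) (Nat.chineseRemainder hco b c)| ≤ ∑ c ∈ C, E := by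
          apply Finset.sum_le_sum
          intro c hc
          apply hE
          rw [hC, Finset.mem_filter, Finset.mem_range] at hc
          have hcr := (Nat.chineseRemainder hco b c).2
          apply Nat.Coprime.mul_right
          · rw [Nat.Coprime, hcr.1.gcd_eq]
            exact hb
          · rw [Nat.Coprime, hcr.2.gcd_eq]
            exact hc.2
      _ = _ := by rw [Finset.sum_const, hCcard, nsmul_eq_mul]
  have hfin : EPhi X W1 b = ∑ c ∈ C, EPhi X (W1 * W2) (Nat.chineseRemainder hco b c) +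
      ∑ n ∈ I.filter (fun n => ¬ n.Coprime W2), f n := by
    rw [EPhi_eq]
    have : ∑ n ∈ (Icc 1 ⌊3 * X⌋₊).filter (fun n => n ≡ b [MOD W1]), Phi (n / X) * ArithmeticFunction.vonMangoldt n =
        ∑ n ∈ I, f n := rfl
    rw [this, hsplit, hfirst, hcls]
    ring
  rw [hfin]
  refine (abs_add_le _ _).trans ?_
  rw [abs_of_nonneg hsecond0]
  linarith

/-- the primes `≤ (log X)/D` of the modulus -/
noncomputable def PD (X D : ℝ) (S : Finset ℕ) (ps : ℕ) : Finset ℕ :=
  (PW X S ps).filter (fun p => p ≤ ⌊Real.log X / D⌋₊)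

theorem mem_PD {X D : ℝ} {S : Finset ℕ} {ps p : ℕ} (hD : 1000 ≤ D) (hX : 1 ≤ X) : p ∈ PD X D S ps ↔
    p ≤ ⌊Real.log X / D⌋₊ ∧ p.Prime ∧ p ∉ S ∧ p ≠ ps := by
  unfold PD
  rw [Finset.mem_filter, mem_PW]
  constructor
  · rintro ⟨⟨_, h2, h3, h4⟩, h5⟩
    exact ⟨h5, h2, h3, h4⟩
  · rintro ⟨h1, h2, h3, h4⟩
    refine ⟨⟨h1.trans ?_, h2, h3, h4⟩, h1⟩
    apply Nat.floor_le_floor
    apply div_le_div_of_nonneg_left (Real.log_nonneg hX) (by norm_num) hD

noncomputable def WD (X D : ℝ) (S : Finset ℕ) (ps : ℕ) : ℕ := ∏ p ∈ PD X D S ps, p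

theorem PD_prime {X D : ℝ} {S : Finset ℕ} {ps p : ℕ} (h : p ∈ PD X D S ps) : p.Prime :=
  (mem_PW.1 (Finset.mem_filter.1 h).1).2.1

theorem WD_pos (X D : ℝ) (S : Finset ℕ) (ps : ℕ) : 0 < WD X D S ps :=
  Finset.prod_pos fun p hp => (PD_prime hp).pos

theorem WD_le (X D : ℝ) (hD : 0 < D) (hX : 1 ≤ X) (S : Finset ℕ) (ps : ℕ) :
    (WD X D S ps : ℝ) ≤ Real.exp (3 / 2 * (Real.log X / D)) := by
  have h1 : WD X D S ps ≤ primorial ⌊Real.log X / D⌋₊ := by
    unfold WD primorial
    apply Finset.prod_le_prod_of_subset_of_one_le'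
    · intro p hp
      rw [Finset.mem_filter, Finset.mem_range]
      exact ⟨Nat.lt_succ_of_le (Finset.mem_filter.1 hp).2, PD_prime hp⟩
    · intro i hi _
      exact (Finset.mem_filter.1 hi).2.one_lt.le
  have h2 : (WD X D S ps : ℝ) ≤ (4 : ℝ) ^ ⌊Real.log X / D⌋₊ := by
    exact_mod_cast h1.trans (primorial_le_four_pow _)
  refine h2.trans ?_
  rw [← Real.rpow_natCast, Real.rpow_def_of_pos (by norm_num)]
  apply Real.exp_le_exp.2
  have h3 : (⌊Real.log X / D⌋₊ : ℝ) ≤ Real.log X / D :=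
    Nat.floor_le (div_nonneg (Real.log_nonneg hX) hD.le)
  have h4 : Real.log 4 ≤ 3 / 2 := by
    rw [show (4 : ℝ) = 2 ^ 2 by norm_num, Real.log_pow]
    have := Real.log_two_lt_d9
    push_cast; linarith
  have h5 : 0 ≤ Real.log X / D := div_nonneg (Real.log_nonneg hX) hD.le
  calc Real.log 4 * (⌊Real.log X / D⌋₊ : ℝ) ≤ 3 / 2 * (Real.log X / D) := by
        apply mul_le_mul h4 h3 (Nat.cast_nonneg _) (by norm_num)

end Pool.Agent.H510R2.Maier
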