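import Mathlib
import Pool.Agent.H50.G.S.H510R2.Maier.MB3
/-! Frequency of the rows. -/

open Finset Filter Topology
open Pool.Agent.H378R2

namespace Pool.Agent.H510R2.Maier

theorem ev_small2 : ∀ᶠ L : ℝ in atTop,
    L ^ 3 * (4 * L ^ 3 * (2 * L) + 8 * Real.exp (L / 2) * (2 * L)) * Real.exp (L / 700) ≤ Real.exp L := by
  have h1 : Tendsto (fun L : ℝ => L ^ 7 * Real.exp (-(1 / 4) * L)) atTop (𝓝 0) := by
    have := Real.tendsto_pow_mul_exp_neg_atTop_nhds_zero 7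
    have h2 := this.comp (tendsto_id.const_mul_atTop (show (0 : ℝ) < 1 / 4 by norm_num))
    have h3 := h2.const_mul ((4 : ℝ) ^ 7)
    rw [mul_zero] at h3
    refine h3.congr fun L => ?_
    simp only [Function.comp, id]
    rw [show -(1 / 4) * L = -(1 / 4 * L) by ring]
    ring
  have h2 : ∀ᶠ L : ℝ in atTop, L ^ 7 * Real.exp (-(1 / 4) * L) < 1 / 24 :=
    h1.eventually_lt_const (by norm_num)
  filter_upwards [h2, eventually_ge_atTop (1 : ℝ)] with L h3 hL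
  have hL0 : 0 < L := by linarith
  have e1 : L ^ 3 * (4 * L ^ 3 * (2 * L) + 8 * Real.exp (L / 2) * (2 * L)) ≤ 24 * L ^ 7 * Real.exp (L / 2) := by
    have a1 : 1 ≤ Real.exp (L / 2) := Real.one_le_exp (by positivity)
    have a2 : L ^ 4 ≤ L ^ 7 := pow_le_pow_right₀ hL (by norm_num)
    have a3 : 0 < L ^ 7 := by positivity
    have : L ^ 3 * (4 * L ^ 3 * (2 * L) + 8 * Real.exp (L / 2) * (2 * L)) = 8 * L ^ 7 + 16 * L ^ 4 * Real.exp (L / 2) := by
      ring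
    rw [this]
    have a4 : 8 * L ^ 7 ≤ 8 * L ^ 7 * Real.exp (L / 2) := by nlinarith
    have a5 : 16 * L ^ 4 * Real.exp (L / 2) ≤ 16 * L ^ 7 * Real.exp (L / 2) := by gcongr
    linarith
  calc L ^ 3 * (4 * L ^ 3 * (2 * L) + 8 * Real.exp (L / 2) * (2 * L)) * Real.exp (L / 700)
      ≤ 24 * L ^ 7 * Real.exp (L / 2) * Real.exp (L / 700) := by gcongr
    _ ≤ 24 * L ^ 7 * Real.exp (L / 2) * Real.exp (L / 4) := by
        gcongr
        linarith
    _ = 24 * (L ^ 7 * Real.exp (-(1 / 4) * L)) * Real.exp L := by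
        rw [show Real.exp L = Real.exp (L / 2) * Real.exp (L / 4) * Real.exp (L / 4) by
          rw [← Real.exp_add, ← Real.exp_add]; congr 1; ring]
        have : Real.exp (-(1 / 4) * L) * Real.exp (L / 4) = 1 := by
          rw [← Real.exp_add]; simp; ring
        calc 24 * L ^ 7 * Real.exp (L / 2) * Real.exp (L / 4)
            = 24 * L ^ 7 * Real.exp (L / 2) * Real.exp (L / 4) * 1 := by ring
          _ = 24 * L ^ 7 * Real.exp (L / 2) * Real.exp (L / 4) * (Real.exp (-(1 / 4) * L) * Real.exp (L / 4)) := by rw [this]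
          _ = _ := by ring
    _ ≤ 1 * Real.exp L := by
        apply mul_le_mul_of_nonneg_right _ (Real.exp_pos _).le
        linarith
    _ = Real.exp L := one_mul _

open Classical in
/-- the rows satisfying `Q` -/
noncomputable def rowset (X : ℝ) (Q : ℕ → Prop) : Finset ℕ :=
  (Icc 1 ⌊3 * X⌋₊).filter (fun n => X < n ∧ (n : ℝ) < 3 * X ∧ Q n)

theorem mem_rowset {X : ℝ} {Q : ℕ → Prop} {n : ℕ} : n ∈ rowset X Q ↔
    (1 ≤ n ∧ n ≤ ⌊3 * X⌋₊) ∧ X < n ∧ (n : ℝ) < 3 * X ∧ Q n := by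
  classical
  unfold rowset
  simp only [Finset.mem_filter, Finset.mem_Icc]

theorem rowset_sum (X : ℝ) (hX : 0 < X) (W r : ℕ) (Q : ℕ → Prop) (g : ℕ → ℝ) :
    ∑ n ∈ Icc 1 ⌊3 * X⌋₊, nu X W r n * g n = ∑ n ∈ rowset X Q, nu X W r n * g n +
      ∑ n ∈ rowset X (fun n => ¬ Q n), nu X W r n * g n := by
  classical
  have h1 : Disjoint (rowset X Q) (rowset X (fun n => ¬ Q n)) := by
    rw [Finset.disjoint_left]
    intro n h2 h3
    exact (mem_rowset.1 h3).2.2.2 (mem_rowset.1 h2).2.2.2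
  rw [← Finset.sum_union h1]
  symm
  apply Finset.sum_subset
  · intro n hn
    rw [Finset.mem_union] at hn
    rcases hn with hn | hn
    · exact Finset.mem_Icc.2 (mem_rowset.1 hn).1
    · exact Finset.mem_Icc.2 (mem_rowset.1 hn).1
  · intro n hn hn'
    have h2 : ¬ (X < n ∧ (n : ℝ) < 3 * X) := by
      intro h3
      apply hn'
      rw [Finset.mem_union]
      by_cases h4 : Q n
      · exact Or.inl (mem_rowset.2 ⟨Finset.mem_Icc.1 hn, h3.1, h3.2, h4⟩)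
      · exact Or.inr (mem_rowset.2 ⟨Finset.mem_Icc.1 hn, h3.1, h3.2, h4⟩)
    rw [nu_eq_zero hX h2, zero_mul]

theorem nu_le_one (X : ℝ) (W r n : ℕ) : nu X W r n ≤ 1 := by
  unfold nu
  split_ifs
  · have := Phi_le_half ((n : ℝ) / X)
    linarith
  · norm_num

/-- counting the rows with few primes -/
theorem count_few (X : ℝ) (hX : 0 < X) (W r : ℕ) (g : ℕ → ℝ) (hg : ∀ n, 0 ≤ g n) (A ε N1 : ℝ) (hA : 0 < A)
    (hε : 0 < ε) (hε1 : ε ≤ 1) (hN1 : N1 = ∑ n ∈ Icc 1 ⌊3 * X⌋₊, nu X W r n)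
    (h : ∑ n ∈ Icc 1 ⌊3 * X⌋₊, nu X W r n * g n ≤ (1 + ε / 2) * A * N1) :
    ε / 4 * N1 ≤ ((rowset X (fun n => g n ≤ (1 + ε) * A)).card : ℝ) := by
  have hN10 : 0 ≤ N1 := by
    rw [hN1]; exact Finset.sum_nonneg fun n _ => nu_nonneg _ _ _ _
  have h1 := rowset_sum X hX W r (fun n => g n ≤ (1 + ε) * A) g
  have h2 := rowset_sum X hX W r (fun n => g n ≤ (1 + ε) * A) (fun _ => 1)
  simp only [mul_one] at h2
  rw [← hN1] at h2
  have h3 : (1 + ε) * A * ∑ n ∈ rowset X (fun n => ¬ g n ≤ (1 + ε) * A), nu X W r n ≤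
      ∑ n ∈ rowset X (fun n => ¬ g n ≤ (1 + ε) * A), nu X W r n * g n := by
    rw [Finset.mul_sum]
    apply Finset.sum_le_sum
    intro n hn
    have h4 := (mem_rowset.1 hn).2.2.2
    have h5 := nu_nonneg X W r n
    nlinarith
  have h4 : 0 ≤ ∑ n ∈ rowset X (fun n => g n ≤ (1 + ε) * A), nu X W r n * g n :=
    Finset.sum_nonneg fun n _ => mul_nonneg (nu_nonneg _ _ _ _) (hg n)
  set B := ∑ n ∈ rowset X (fun n => ¬ g n ≤ (1 + ε) * A), nu X W r n with hB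
  have h5 : (1 + ε) * A * B ≤ (1 + ε / 2) * A * N1 := by linarith
  have h6 : (1 + ε) * B ≤ (1 + ε / 2) * N1 := by
    have h7 : A * ((1 + ε) * B) ≤ A * ((1 + ε / 2) * N1) := by linarith
    exact le_of_mul_le_mul_left h7 hA
  have h7 : (1 + ε / 2) * N1 ≤ (1 + ε) * ((1 - ε / 4) * N1) := by
    have : 1 + ε / 2 ≤ (1 + ε) * (1 - ε / 4) := by nlinarith
    calc (1 + ε / 2) * N1 ≤ ((1 + ε) * (1 - ε / 4)) * N1 := by gcongr
      _ = _ := by ring
  have h8 : B ≤ (1 - ε / 4) * N1 := le_of_mul_le_mul_left (h6.trans h7) (by linarith)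
  have h9 : ∑ n ∈ rowset X (fun n => g n ≤ (1 + ε) * A), nu X W r n ≤
      ((rowset X (fun n => g n ≤ (1 + ε) * A)).card : ℝ) := by
    rw [Finset.card_eq_sum_ones]
    push_cast
    exact Finset.sum_le_sum fun n _ => nu_le_one X W r n
  linarith

/-- counting the rows with many primes -/
theorem count_many (X : ℝ) (hX : 0 < X) (W r : ℕ) (g : ℕ → ℝ) (A ε N1 K : ℝ) (hA : 1 ≤ A)
    (hε : 0 < ε) (hε1 : ε ≤ 1) (hg : ∀ n : ℕ, X < n → (n : ℝ) < 3 * X → g n ≤ K)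
    (hN1 : N1 = ∑ n ∈ Icc 1 ⌊3 * X⌋₊, nu X W r n)
    (h : (1 - ε / 2) * A * N1 ≤ ∑ n ∈ Icc 1 ⌊3 * X⌋₊, nu X W r n * g n) :
    ε / 2 * N1 ≤ K * ((rowset X (fun n => (1 - ε) * A ≤ g n)).card : ℝ) := by
  have hN10 : 0 ≤ N1 := by
    rw [hN1]; exact Finset.sum_nonneg fun n _ => nu_nonneg _ _ _ _
  have h1 := rowset_sum X hX W r (fun n => (1 - ε) * A ≤ g n) g
  have h2 := rowset_sum X hX W r (fun n => (1 - ε) * A ≤ g n) (fun _ => 1)
  simp only [mul_one] at h2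
  rw [← hN1] at h2
  have h3 : ∑ n ∈ rowset X (fun n => ¬ (1 - ε) * A ≤ g n), nu X W r n * g n ≤
      (1 - ε) * A * ∑ n ∈ rowset X (fun n => ¬ (1 - ε) * A ≤ g n), nu X W r n := by
    rw [Finset.mul_sum]
    apply Finset.sum_le_sum
    intro n hn
    have h4 := (mem_rowset.1 hn).2.2.2
    have h5 := nu_nonneg X W r n
    nlinarith
  have h4 : ∑ n ∈ rowset X (fun n => ¬ (1 - ε) * A ≤ g n), nu X W r n ≤ N1 := by
    have : 0 ≤ ∑ n ∈ rowset X (fun n => (1 - ε) * A ≤ g n), nu X W r n :=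
      Finset.sum_nonneg fun n _ => nu_nonneg _ _ _ _
    linarith
  have h5 : (1 - ε) * A * ∑ n ∈ rowset X (fun n => ¬ (1 - ε) * A ≤ g n), nu X W r n ≤ (1 - ε) * A * N1 := by
    apply mul_le_mul_of_nonneg_left h4
    apply mul_nonneg <;> linarith
  have h6 : ∑ n ∈ rowset X (fun n => (1 - ε) * A ≤ g n), nu X W r n * g n ≤
      K * ((rowset X (fun n => (1 - ε) * A ≤ g n)).card : ℝ) := by
    rw [Finset.card_eq_sum_ones]
    push_cast
    rw [Finset.mul_sum]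
    apply Finset.sum_le_sum
    intro n hn
    have h7 := mem_rowset.1 hn
    have h8 := hg n h7.2.1 h7.2.2.1
    have h9 := nu_nonneg X W r n
    have h10 := nu_le_one X W r n
    have h11 : 0 ≤ g n := by
      have : 0 ≤ (1 - ε) * A := by apply mul_nonneg <;> linarith
      exact this.trans h7.2.2.2
    calc nu X W r n * g n ≤ 1 * g n := by gcongr
      _ ≤ K * 1 := by linarith
  have h7 : ε / 2 * N1 ≤ (1 - ε / 2) * A * N1 - (1 - ε) * A * N1 := by
    have : (1 - ε / 2) * A * N1 - (1 - ε) * A * N1 = A * (ε / 2 * N1) := by ring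
    rw [this]
    have h8 : 0 ≤ ε / 2 * N1 := by positivity
    nlinarith
  linarith

end Pool.Agent.H510R2.Maier
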