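import Mathlib
import Pool.Agent.H50.G.S.H510R2.Maier.MA6
/-! Sieve asymptotics with a general cut-off `L / D`. -/

open Finset Filter Topology

namespace Pool.Agent.H510R2.Maier.G

theorem tendsto_z (D : ℝ) (hD : 1000 ≤ D) : Tendsto (fun L : ℝ => ⌊L / D⌋₊) atTop atTop :=
  tendsto_nat_floor_atTop.comp (tendsto_id.atTop_div_const (by linarith))

theorem log_z (D : ℝ) (hD : 1000 ≤ D) : ∀ᶠ L : ℝ in atTop, Real.log L / 2 ≤ Real.log ⌊L / D⌋₊ := by
  have hD0 : 0 < D := by linarith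
  have h1 := tlogfloor (1 / D) 1 (by positivity) (by norm_num)
  have h2 := h1.eventually_const_lt (show (1 / 2 : ℝ) < 1 by norm_num)
  filter_upwards [h2, eventually_gt_atTop (1 : ℝ)] with L h3 h4
  have h5 := Real.log_pos h4
  rw [Real.rpow_one, show (1 : ℝ) / D * L = L / D by ring, lt_div_iff₀ h5] at h3
  linarith

theorem PI_bd (D : ℝ) (hD : 1000 ≤ D) : ∀ᶠ L : ℝ in atTop, ∀ N : ℕ, ((PI ⌊L / D⌋₊ N).card : ℝ) ≤ 4 * N / Real.log L := by
  obtain ⟨N0, hN0⟩ := eventually_atTop.1 (pi_ev 1 one_pos)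
  filter_upwards [log_z D hD, (tendsto_z D hD).eventually_ge_atTop (max N0 2), eventually_gt_atTop (1 : ℝ)] with L h1 h2 h3
  intro N
  have h4 := Real.log_pos h3
  rcases le_or_gt N ⌊L / D⌋₊ with h5 | h5
  · have : PI ⌊L / D⌋₊ N = ∅ := by
      unfold PI
      rw [Finset.Ioc_eq_empty (by omega)]
      simp
    rw [this]
    simp only [card_empty, Nat.cast_zero]
    positivity
  · have h6 := hN0 N ((le_max_left _ _).trans (h2.trans h5.le))
    have h7 : ((PI ⌊L / D⌋₊ N).card : ℝ) ≤ Nat.primeCounting N := by exact_mod_cast card_PI_le _ _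
    have h8 : Real.log ⌊L / D⌋₊ ≤ Real.log N := by
      apply Real.log_le_log
      · have := (le_max_right _ _).trans h2
        exact_mod_cast (by omega : 0 < ⌊L / D⌋₊)
      · exact_mod_cast h5.le
    have h9 : Real.log L / 2 ≤ Real.log N := h1.trans h8
    calc ((PI ⌊L / D⌋₊ N).card : ℝ) ≤ (1 + 1) * (N / Real.log N) := h7.trans h6
      _ ≤ (1 + 1) * (N / (Real.log L / 2)) := by gcongr
      _ = 4 * N / Real.log L := by field_simp; ring

theorem R1_small (D : ℝ) (hD : 1000 ≤ D) (K : ℝ) (hK : 0 < K) (δ : ℝ) (hδ : 0 < δ) : ∀ᶠ L : ℝ in atTop,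
    ∑ p ∈ PI ⌊L / D⌋₊ ⌊K * L⌋₊, (1 : ℝ) / p ≤ δ := by
  have hD0 : 0 < D := by linarith
  have h1 := R1_cell K (1 / D) 1 1 hK (by positivity) one_pos one_pos
  rw [div_one, Real.log_one] at h1
  have h2 := h1.eventually_lt_const hδ
  filter_upwards [h2] with L h3
  simp only [Real.rpow_one] at h3
  rw [show (1 : ℝ) / D * L = L / D by ring] at h3
  rcases le_or_gt ⌊L / D⌋₊ ⌊K * L⌋₊ with h4 | h4
  · rw [sum_PI_inv h4]
    exact h3.le
  · have : PI ⌊L / D⌋₊ ⌊K * L⌋₊ = ∅ := by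
      unfold PI
      rw [Finset.Ioc_eq_empty (by omega)]
      simp
    rw [this]
    simp [hδ.le]

/-- the bound for `GG` -/
theorem GG_bd (D : ℝ) (hD : 1000 ≤ D) (lam : ℝ) (hlam : 0 < lam) (δ : ℝ) (hδ : 0 < δ) : ∀ᶠ L : ℝ in atTop,
    ∀ S : Finset ℕ, ∑ q ∈ S, (1 : ℝ) / q ≤ 6 / (Real.log L) ^ 2 → ∀ T : ℕ, T ≤ Yf lam L →
      ((GG ⌊L / D⌋₊ S T).card : ℝ) ≤ 1 + (PI ⌊L / D⌋₊ T).card + δ * T / Real.log L := by
  have hD0 : 0 < D := by linarith
  have hK : 0 < D * lam := by positivity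
  have e1 := R1_small D hD (D * lam) hK (δ / 8) (by positivity)
  have e2 := Real.tendsto_log_atTop.eventually_ge_atTop (12 / δ)
  filter_upwards [e1, e2, PI_bd D hD, eventually_gt_atTop (1 : ℝ), eventually_gt_atTop (D ^ 3 * lam)] with L h1 h2 h3 h4 h5
  intro S hS T hT
  have hL0 : 0 < L := by linarith
  have hlog := Real.log_pos h4
  set z := ⌊L / D⌋₊ with hz
  have hz1 : L / D < (z : ℝ) + 1 := Nat.lt_floor_add_one _
  have hTr : (T : ℝ) ≤ lam * L ^ 2 := by
    have h6 : (T : ℝ) ≤ Yf lam L := by exact_mod_cast hT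
    exact h6.trans (Nat.floor_le (by positivity))
  have hT3 : T < (z + 1) ^ 3 := by
    have h6 : (T : ℝ) < (((z + 1) ^ 3 : ℕ) : ℝ) := by
      push_cast
      calc (T : ℝ) ≤ lam * L ^ 2 := hTr
        _ < (L / D) ^ 3 := by
            have : (L / D) ^ 3 = L / D ^ 3 * L ^ 2 := by ring
            rw [this]
            apply mul_lt_mul_of_pos_right _ (by positivity)
            rw [lt_div_iff₀ (by positivity)]
            linarith
        _ ≤ ((z : ℝ) + 1) ^ 3 := by gcongr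
    exact_mod_cast h6
  have hG := GG_le z S T hT3
  have hG' : ((GG z S T).card : ℝ) ≤ 1 + (PI z T).card + ∑ p ∈ PI z (T / (z + 1)), ((PI z (T / p)).card : ℝ) +
      ∑ q ∈ S, ((T / q : ℕ) : ℝ) := by exact_mod_cast hG
  have hA : ∑ p ∈ PI z (T / (z + 1)), ((PI z (T / p)).card : ℝ) ≤ (δ / 2) * T / Real.log L := by
    have hsub : PI z (T / (z + 1)) ⊆ PI z ⌊D * lam * L⌋₊ := by
      intro p hp
      have h6 := mem_PI.1 hp
      refine mem_PI.2 ⟨⟨h6.1.1, h6.1.2.trans ?_⟩, h6.2⟩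
      apply Nat.le_floor
      refine Nat.cast_div_le.trans ?_
      push_cast
      rw [div_le_iff₀ (by positivity)]
      calc (T : ℝ) ≤ lam * L ^ 2 := hTr
        _ = D * lam * L * (L / D) := by field_simp
        _ ≤ D * lam * L * (z + 1) := by gcongr
    calc ∑ p ∈ PI z (T / (z + 1)), ((PI z (T / p)).card : ℝ)
        ≤ ∑ p ∈ PI z (T / (z + 1)), 4 * (T : ℝ) / Real.log L * (1 / p) := by
          apply Finset.sum_le_sum
          intro p hp
          refine (h3 (T / p)).trans ?_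
          have h6 : ((T / p : ℕ) : ℝ) ≤ T / p := Nat.cast_div_le
          calc 4 * ((T / p : ℕ) : ℝ) / Real.log L ≤ 4 * ((T : ℝ) / p) / Real.log L := by gcongr
            _ = _ := by ring
      _ = 4 * (T : ℝ) / Real.log L * ∑ p ∈ PI z (T / (z + 1)), (1 : ℝ) / p := by rw [Finset.mul_sum]
      _ ≤ 4 * (T : ℝ) / Real.log L * (δ / 8) := by
          apply mul_le_mul_of_nonneg_left _ (by positivity)
          refine le_trans ?_ h1
          apply Finset.sum_le_sum_of_subset_of_nonneg hsub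
          intro p _ _
          positivity
      _ = _ := by ring
  have hB : ∑ q ∈ S, ((T / q : ℕ) : ℝ) ≤ (δ / 2) * T / Real.log L := by
    calc ∑ q ∈ S, ((T / q : ℕ) : ℝ) ≤ ∑ q ∈ S, (T : ℝ) * (1 / q) := by
          apply Finset.sum_le_sum
          intro q _
          refine Nat.cast_div_le.trans ?_
          rw [mul_one_div]
      _ = T * ∑ q ∈ S, (1 : ℝ) / q := by rw [Finset.mul_sum]
      _ ≤ T * (6 / (Real.log L) ^ 2) := by gcongr
      _ = T / Real.log L * (6 / Real.log L) := by field_simp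
      _ ≤ T / Real.log L * (δ / 2) := by
          apply mul_le_mul_of_nonneg_left _ (by positivity)
          rw [div_le_iff₀ hlog]
          rw [div_le_iff₀ hδ] at h2
          linarith
      _ = _ := by ring
  calc ((GG z S T).card : ℝ) ≤ _ := hG'
    _ ≤ 1 + (PI z T).card + (δ / 2) * T / Real.log L + (δ / 2) * T / Real.log L := by gcongr
    _ = _ := by ring


end Pool.Agent.H510R2.Maier.G
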