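import Mathlib
import Pool.Agent.H50.G.S.H510R2.Maier.MB5
import Pool.Agent.H50.G.S.H510R2.Maier.MB6
/-! The rows `r = 0`, general cut-off. -/

open Finset Filter Topology
open Pool.Agent.H378R2

namespace Pool.Agent.H510R2.Maier.G

theorem prime_dvd_WD {X D : ℝ} {S : Finset ℕ} {ps p : ℕ} (hp : p.Prime) (h : p ∈ PD X D S ps) : p ∣ WD X D S ps :=
  Finset.dvd_prod_of_mem _ h

theorem VV_zero_HH (D : ℝ) (hD : 1000 ≤ D) (X : ℝ) (hX : 1 ≤ X) (S : Finset ℕ) (ps Y : ℕ) :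
    VV (WD X D S ps) 0 Y ≤ (HH ⌊Real.log X / D⌋₊ S ps Y).card := by
  unfold VV
  apply Finset.card_le_card
  intro h hh
  rw [Finset.mem_filter, zero_add] at hh
  refine mem_HH.2 ⟨Finset.mem_Icc.1 hh.1, ?_⟩
  intro p hp hd
  by_contra hcon
  push Not at hcon
  have h1 : p ∈ PD X D S ps := (mem_PD hD hX).2 ⟨hcon.1, hp, hcon.2.1, hcon.2.2⟩
  have h2 : p ∣ WD X D S ps := prime_dvd_WD hp h1
  exact Nat.not_coprime_of_dvd_of_dvd hp.one_lt hd h2 hh.2

theorem QQ_le_BE (D : ℝ) (hD : 1000 ≤ D) (X : ℝ) (hX : 1 ≤ X) (S : Finset ℕ) (ps : ℕ) :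
    QQ ⌊Real.log X / D⌋₊ ≤ BE (PD X D S ps) := by
  unfold QQ BE
  apply Finset.prod_le_prod_of_subset_of_le_one
  · intro p hp
    have := (mem_PD hD hX).1 hp
    rw [Finset.mem_filter, Finset.mem_Icc]
    exact ⟨⟨this.2.1.one_lt.le, this.1⟩, this.2.1⟩
  · intro p hp
    exact one_sub_inv_nonneg (Finset.mem_filter.1 hp).2
  · intro p _ _
    exact one_sub_inv_le

theorem QQ_ev (D : ℝ) (hD : 1000 ≤ D) (δ : ℝ) (hδ : 0 < δ) : ∀ᶠ L : ℝ in atTop,
    (QQ ⌊L / D⌋₊)⁻¹ ≤ (Real.exp Real.eulerMascheroniConstant + δ) * Real.log L := by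
  have hD0 : 0 < D := by linarith
  have h1 := QQ_real.comp (tendsto_id.atTop_div_const hD0)
  have h2 := h1.eventually_lt_const (show Real.exp Real.eulerMascheroniConstant <
    Real.exp Real.eulerMascheroniConstant + δ by linarith)
  filter_upwards [h2, eventually_gt_atTop D] with L h3 h4
  simp only [Function.comp, id] at h3
  have hL0 : 0 < L := by linarith
  have h5 : 0 < Real.log (L / D) := Real.log_pos (by rw [lt_div_iff₀ hD0]; linarith)
  rw [div_lt_iff₀ h5] at h3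
  refine h3.le.trans ?_
  have h6 : Real.log (L / D) ≤ Real.log L := Real.log_le_log (by positivity) (by
    rw [div_le_iff₀ hD0]; nlinarith)
  have : 0 < Real.exp Real.eulerMascheroniConstant := Real.exp_pos _
  gcongr

/-- the count for `r = 0` -/
theorem VV_zero_le (D : ℝ) (hD : 1000 ≤ D) (lam : ℝ) (hlam : 0 < lam) (δ : ℝ) (hδ : 0 < δ) (hδ1 : δ ≤ 1) : ∃ Z : ℕ, ∀ᶠ X : ℝ in atTop,
    ∀ (ps : ℕ) (S : Finset ℕ), GoodP Z ps → GoodS X S →
      (VV (WD X D S ps) 0 (Yf lam (Real.log X)) : ℝ) + 80 ≤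
        (1 / 2 + 5 * δ) * (Yf lam (Real.log X) / Real.log (Real.log X)) := by
  refine ⟨⌈10 / δ⌉₊, ?_⟩
  have e1 := GG_bd D hD lam hlam δ hδ
  have e2 := PI_bd D hD
  have e3 := PI_Y lam hlam δ hδ
  have e4 := log_small δ lam hδ hlam
  have ev := ((e1.and e2).and (e3.and e4)).and (eventually_gt_atTop (1 : ℝ))
  filter_upwards [Real.tendsto_log_atTop.eventually ev, eventually_ge_atTop (1 : ℝ)] with X hX hX1
  obtain ⟨⟨⟨h1, h2⟩, h3, h4⟩, h5⟩ := hX
  intro ps S hps hS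
  set L := Real.log X with hL
  have hlog := Real.log_pos h5
  have hS2 := hS.2
  rw [← hL] at hS2
  set Y := Yf lam L with hY
  set z := ⌊L / D⌋₊ with hz
  have g1 : ∀ T : ℕ, T ≤ Y → ((GG z S T).card : ℝ) ≤ 1 + 5 / Real.log L * T := by
    intro T hT
    have g2 := h1 S hS2 T hT
    have g3 := h2 T
    have g4 : δ * T / Real.log L ≤ 1 * T / Real.log L := by gcongr
    calc ((GG z S T).card : ℝ) ≤ 1 + 4 * T / Real.log L + 1 * T / Real.log L := by linarith
      _ = _ := by ring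
  have g5 : ((GG z S Y).card : ℝ) ≤ 1 + (1 / 2 + 2 * δ) * (Y / Real.log L) := by
    have g2 := h1 S hS2 Y le_rfl
    have g3 := h3 z
    calc ((GG z S Y).card : ℝ) ≤ 1 + (1 / 2 + δ) * (Y / Real.log L) + δ * Y / Real.log L := by linarith
      _ = _ := by ring
  have g6 : (VV (WD X D S ps) 0 Y : ℝ) ≤ (HH z S ps Y).card := by exact_mod_cast VV_zero_HH D hD X hX1 S ps Y
  have hYl : 0 ≤ (Y : ℝ) / Real.log L := by positivity
  rcases hps with rfl | ⟨hps, hpZ⟩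
  · have g7 : ((HH z S 1 Y).card : ℝ) ≤ (GG z S Y).card := by exact_mod_cast Finset.card_le_card (HH_one z S Y)
    have g8 : (0 : ℝ) ≤ Nat.log 2 Y := Nat.cast_nonneg _
    nlinarith
  · have g7 : ((HH z S ps Y).card : ℝ) ≤ (GG z S Y).card + (HH z S ps (Y / ps)).card := by
      exact_mod_cast HH_rec z S ps Y hps
    have g8 := HH_bound z S ps Y hps (5 / Real.log L) (by positivity) g1 (Y / ps) (Nat.div_le_self _ _)
    have g9 : (Nat.log 2 (Y / ps) : ℝ) ≤ Nat.log 2 Y := by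
      exact_mod_cast Nat.log_mono_right (Nat.div_le_self _ _)
    have g10 : 2 * (5 / Real.log L) * ((Y / ps : ℕ) : ℝ) ≤ δ * (Y / Real.log L) := by
      have g11 : ((Y / ps : ℕ) : ℝ) ≤ Y / ps := Nat.cast_div_le
      have g12 : 10 / δ ≤ ps := by
        refine (Nat.le_ceil _).trans ?_
        exact_mod_cast hpZ.le
      have g13 : (0 : ℝ) < ps := by exact_mod_cast hps.pos
      rw [div_le_iff₀ hδ] at g12
      calc 2 * (5 / Real.log L) * ((Y / ps : ℕ) : ℝ) ≤ 2 * (5 / Real.log L) * (Y / ps) := by gcongr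
        _ = 10 / ps * (Y / Real.log L) := by field_simp; ring
        _ ≤ δ * (Y / Real.log L) := by
            apply mul_le_mul_of_nonneg_right _ hYl
            rw [div_le_iff₀ g13]
            linarith
    linarith

/-- the rows `r = 0` have few primes -/
theorem side_lower (D : ℝ) (hD : 1000 ≤ D) (lam : ℝ) (hlam : 0 < lam) (δ : ℝ) (hδ : 0 < δ) : ∃ Z : ℕ, ∀ᶠ X : ℝ in atTop,
    ∀ (ps : ℕ) (S : Finset ℕ), GoodP Z ps → GoodS X S →
      ((VV (WD X D S ps) 0 (Yf lam (Real.log X)) : ℝ) + 80) / BE (PD X D S ps) ≤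
        (Real.exp Real.eulerMascheroniConstant / 2 + δ) * (Yf lam (Real.log X)) := by
  set E := Real.exp Real.eulerMascheroniConstant with hE
  have hE0 : 0 < E := Real.exp_pos _
  set δ1 : ℝ := min 1 (δ / (5 * E + 6)) with hδ1
  have hδ1p : 0 < δ1 := lt_min one_pos (by positivity)
  have hδ11 : δ1 ≤ 1 := min_le_left _ _
  have hδ12 : δ1 * (5 * E + 6) ≤ δ := by
    have : δ1 ≤ δ / (5 * E + 6) := min_le_right _ _
    rwa [le_div_iff₀ (by positivity)] at this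
  obtain ⟨Z, hZ⟩ := VV_zero_le D hD lam hlam δ1 hδ1p hδ11
  refine ⟨Z, ?_⟩
  have e1 := Real.tendsto_log_atTop.eventually ((QQ_ev D hD δ1 hδ1p).and (eventually_gt_atTop (1 : ℝ)))
  filter_upwards [hZ, e1, eventually_ge_atTop (1 : ℝ)] with X h1 h2 hX1
  intro ps S hps hS
  obtain ⟨h2, h3⟩ := h2
  have h4 := h1 ps S hps hS
  set L := Real.log X with hL
  have hlog := Real.log_pos h3
  have h5 := QQ_le_BE D hD X hX1 S ps
  have h6 := QQ_pos ⌊L / D⌋₊
  have h7 : (BE (PD X D S ps))⁻¹ ≤ (E + δ1) * Real.log L := (inv_anti₀ h6 h5).trans h2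
  have h8 : 0 < BE (PD X D S ps) := lt_of_lt_of_le h6 h5
  have hY0 : (0 : ℝ) ≤ Yf lam L := Nat.cast_nonneg _
  calc ((VV (WD X D S ps) 0 (Yf lam L) : ℝ) + 80) / BE (PD X D S ps)
      = ((VV (WD X D S ps) 0 (Yf lam L) : ℝ) + 80) * (BE (PD X D S ps))⁻¹ := by rw [div_eq_mul_inv]
    _ ≤ ((1 / 2 + 5 * δ1) * (Yf lam L / Real.log L)) * ((E + δ1) * Real.log L) := by
        apply mul_le_mul h4 h7 (by positivity) (by positivity)
    _ = (1 / 2 + 5 * δ1) * (E + δ1) * Yf lam L := by field_simp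
    _ ≤ (E / 2 + δ) * Yf lam L := by
        apply mul_le_mul_of_nonneg_right _ hY0
        nlinarith

end Pool.Agent.H510R2.Maier.G
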